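import Pool.Agent.FTR.St

/-!
# FTR: module Fml, the formula of a conjunction of kept gates
-/

set_option autoImplicit false

namespace Pool.Agent.FTR

open Finset

/-- the formula `F = b` -/
private def Fml_lit {V : Type} (F : FRM.BF V) (b : Bool) : FRM.BF V :=
  if b = true then F else FRM.BF.not F

private theorem Fml_lit_size {V : Type} (F : FRM.BF V) (b : Bool) :
    (Fml_lit F b).size = F.size := by
  unfold Fml_lit
  cases b <;> simp [FRM.BF.size]

private theorem Fml_lit_eval {V : Type} (F : FRM.BF V) (b : Bool) (z : V → Bool) :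
    (Fml_lit F b).eval z = true ↔ F.eval z = b := by
  unfold Fml_lit
  cases b <;> simp [FRM.BF.eval]

private theorem Fml_conj {V W : Type} [DecidableEq W] (F : W → FRM.BF V) (C : Finset W) :
    ∃ K : FRM.BF V, K.size = ∑ p ∈ C, (F p).size ∧
      ∀ z, K.eval z = true ↔ ∀ p ∈ C, (F p).eval z = true := by
  induction C using Finset.induction_on with
  | empty => exact ⟨FRM.BF.tt, by simp [FRM.BF.size], fun z => by simp [FRM.BF.eval]⟩
  | insert a C ha ih =>
    obtain ⟨K, hK1, hK2⟩ := ih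
    refine ⟨FRM.BF.and (F a) K, ?_, fun z => ?_⟩
    · rw [Finset.sum_insert ha, ← hK1]
      rfl
    · have h1 : (FRM.BF.and (F a) K).eval z = ((F a).eval z && K.eval z) := rfl
      rw [h1, Bool.and_eq_true, hK2]
      simp

open Classical in
private theorem Fml_leaf {ι Y : Type} (Λ : Net ι Y) (y : Y) (u : ι) :
    Λ.leaf y u = true ↔
      (Λ.own u y = true ∧ ∀ p ∈ Λ.ch u, Λ.Keep p.1 → Λ.val p.1 y = p.2) := by
  unfold Net.leaf
  constructor
  · intro h
    exact of_decide_eq_true h
  · intro h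
    exact decide_eq_true h

theorem thm_Fml (hS : St_Siz) : St_Fml := by
  intro ι Y _ _ Λ l C hC
  classical
  obtain ⟨siz, hs1, hs2⟩ := hS ι Y Λ
  have main : ∀ (n : ℕ) (u : ι), Λ.rank u < n → Λ.lev u ≤ l → ∃ F : FRM.BF ι, F.size = siz u ∧
      ∀ (y : Y) (z : ι → Bool), (∀ u, Λ.lev u ≤ l → z u = Λ.leaf y u) →
        F.eval z = Λ.val u y := by
    intro n
    induction n with
    | zero => intro u hu; exact absurd hu (Nat.not_lt_zero _)
    | succ n ih =>
      intro u hu hl
      have hex : ∀ v : ι, ∃ F : FRM.BF ι, (Λ.rank v < n ∧ Λ.lev v ≤ l) → F.size = siz v ∧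
          ∀ (y : Y) (z : ι → Bool), (∀ u, Λ.lev u ≤ l → z u = Λ.leaf y u) →
            F.eval z = Λ.val v y := by
        intro v
        by_cases hv : Λ.rank v < n ∧ Λ.lev v ≤ l
        · obtain ⟨F, hF⟩ := ih v hv.1 hv.2
          exact ⟨F, fun _ => hF⟩
        · exact ⟨FRM.BF.tt, fun h => absurd h hv⟩
      choose Fv hFv using hex
      have hch : ∀ p ∈ Λ.ch u, Λ.rank p.1 < n ∧ Λ.lev p.1 ≤ l := fun p hp =>
        ⟨lt_of_lt_of_le (Λ.rank_lt u p hp) (Nat.lt_succ_iff.1 hu), (Λ.lev_le u p hp).trans hl⟩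
      obtain ⟨K, hK1, hK2⟩ := Fml_conj (fun p : ι × Bool => Fml_lit (Fv p.1) p.2)
        ((Λ.ch u).filter (fun p => ¬ Λ.Keep p.1))
      refine ⟨Fml_lit (FRM.BF.and (FRM.BF.var u) K) (Λ.sgn u), ?_, fun y z hz => ?_⟩
      · rw [Fml_lit_size]
        have h1 : (FRM.BF.and (FRM.BF.var u) K).size = 1 + K.size := rfl
        rw [h1, hK1, hs1 u]
        congr 1
        refine Finset.sum_congr rfl fun p hp => ?_
        rw [Fml_lit_size]
        exact (hFv p.1 (hch p (Finset.mem_filter.1 hp).1)).1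
      · have h1 : (FRM.BF.and (FRM.BF.var u) K).eval z = (z u && K.eval z) := rfl
        have h2 : (FRM.BF.and (FRM.BF.var u) K).eval z = true ↔ Λ.val u y = Λ.sgn u := by
          rw [h1, Bool.and_eq_true, hK2, Λ.val_iff, hz u hl, Fml_leaf]
          constructor
          · rintro ⟨⟨h3, h4⟩, h5⟩
            refine ⟨h3, fun p hp => ?_⟩
            by_cases hk : Λ.Keep p.1
            · exact h4 p hp hk
            · have h6 := h5 p (Finset.mem_filter.2 ⟨hp, hk⟩)
              rw [Fml_lit_eval, (hFv p.1 (hch p hp)).2 y z hz] at h6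
              exact h6
          · rintro ⟨h3, h4⟩
            refine ⟨⟨h3, fun p hp _ => h4 p hp⟩, fun p hp => ?_⟩
            have hp' := (Finset.mem_filter.1 hp).1
            rw [Fml_lit_eval, (hFv p.1 (hch p hp')).2 y z hz]
            exact h4 p hp'
        have h3 := Fml_lit_eval (FRM.BF.and (FRM.BF.var u) K) (Λ.sgn u) z
        rw [Bool.eq_iff_iff, h3]
        cases hsg : Λ.sgn u <;> rw [hsg] at h2 <;>
          cases hv : Λ.val u y <;> rw [hv] at h2 <;>
          cases he : (FRM.BF.and (FRM.BF.var u) K).eval z <;> rw [he] at h2 <;> simp at h2 <;> simp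
  by_cases hcon : ∃ u, (u, true) ∈ C ∧ (u, false) ∈ C
  · obtain ⟨u, hu1, hu2⟩ := hcon
    refine ⟨FRM.BF.not FRM.BF.tt, Nat.zero_le _, fun y z _ => ?_⟩
    constructor
    · intro h
      have h1 : (FRM.BF.not (FRM.BF.tt : FRM.BF ι)).eval z = false := rfl
      rw [h1] at h
      exact absurd h (by simp)
    · intro h
      have h1 := h (u, true) hu1
      have h2 := h (u, false) hu2
      simp only at h1 h2
      rw [h1] at h2
      exact absurd h2 (by simp)
  · have hinj : Set.InjOn (Prod.fst : ι × Bool → ι) C := by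
      rintro ⟨u, b⟩ h1 ⟨u', b'⟩ h2 h3
      simp only at h3
      subst h3
      cases b <;> cases b'
      · rfl
      · exact absurd ⟨u, h2, h1⟩ hcon
      · exact absurd ⟨u, h1, h2⟩ hcon
      · rfl
    have hex : ∀ v : ι, ∃ F : FRM.BF ι, Λ.lev v ≤ l → F.size = siz v ∧
        ∀ (y : Y) (z : ι → Bool), (∀ u, Λ.lev u ≤ l → z u = Λ.leaf y u) →
          F.eval z = Λ.val v y := by
      intro v
      by_cases hv : Λ.lev v ≤ l
      · obtain ⟨F, hF⟩ := main (Λ.rank v + 1) v (Nat.lt_succ_self _) hv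
        exact ⟨F, fun _ => hF⟩
      · exact ⟨FRM.BF.tt, fun h => absurd h hv⟩
    choose Fv hFv using hex
    obtain ⟨K, hK1, hK2⟩ := Fml_conj (fun p : ι × Bool => Fml_lit (Fv p.1) p.2) C
    refine ⟨K, ?_, fun y z hz => ?_⟩
    · rw [hK1]
      have h1 : ∑ p ∈ C, (Fml_lit (Fv p.1) p.2).size = ∑ p ∈ C, siz p.1 :=
        Finset.sum_congr rfl fun p hp => by
          rw [Fml_lit_size]
          exact (hFv p.1 (hC p hp).2).1
      rw [h1, ← Finset.sum_image (f := siz) (g := Prod.fst) hinj]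
      refine le_trans (Finset.sum_le_sum_of_subset ?_) hs2
      intro u hu
      obtain ⟨p, hp, rfl⟩ := Finset.mem_image.1 hu
      exact Finset.mem_filter.2 ⟨Finset.mem_univ _, (hC p hp).1⟩
    · rw [hK2]
      constructor
      · intro h p hp
        have h1 := h p hp
        rw [Fml_lit_eval, (hFv p.1 (hC p hp).2).2 y z hz] at h1
        exact h1
      · intro h p hp
        rw [Fml_lit_eval, (hFv p.1 (hC p hp).2).2 y z hz]
        exact h p hp

end Pool.Agent.FTR
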