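import Pool.Agent.FTR.St
import Pool.Agent.ALM.Numbers

/-!
# FTR: the iterated recursion
-/

set_option autoImplicit false

namespace Pool.Agent.FTR

open Pool.Agent.ALM

/-- The iterated recursion. -/
theorem thm_Num : St_Num := by
  intro h
  induction h with
  | zero =>
    refine ⟨1, fun f E Λ s' h1 hs1 _ h3 => ?_⟩
    simp only [Function.iterate_zero, id_eq, pow_one, pow_zero, Nat.sub_self, mul_one]
    have hE0 : (0 : ℝ) ≤ E := Nat.cast_nonneg _
    constructor <;> nlinarith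
  | succ h ih =>
    obtain ⟨K, hK⟩ := ih
    refine ⟨(4 + 2 * K) * 2 ^ h + K, fun f E Λ s' h1 hs1 hf h3 => ?_⟩
    obtain ⟨i1, i2⟩ := hK f E Λ s' h1 hs1 hf h3
    rw [Function.iterate_succ_apply']
    set e : ℕ := f^[h] E with he
    set x : ℝ := (e : ℝ) + 1 with hx
    have hx1 : 1 ≤ x := by
      have : (0 : ℝ) ≤ e := Nat.cast_nonneg _
      rw [hx]
      linarith
    set R : ℝ := (6 * Λ) ^ K with hR
    have hR1 : 1 ≤ R := one_le_pow₀ (by linarith)
    have hst := hf e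
    rw [← hx, add_comm (Real.sqrt (s' * x)) x] at hst
    set y : ℝ := ((f e : ℕ) : ℝ) + 1 with hy
    have hy0 : 0 ≤ y := by
      have : (0 : ℝ) ≤ (f e : ℕ) := Nat.cast_nonneg _
      rw [hy]
      linarith
    -- `x` is at most `R * sqrt (s' * x)`
    have hxS : x ≤ R * Real.sqrt (s' * x) := by
      have e1 : x ^ 2 ≤ (R * Real.sqrt (s' * x)) ^ 2 := by
        rw [mul_pow, Real.sq_sqrt (by positivity)]
        have e2 : x * x ≤ (R * s') * x := mul_le_mul_of_nonneg_right i1 (by linarith)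
        have e3 : R * (s' * x) ≤ R ^ 2 * (s' * x) :=
          mul_le_mul_of_nonneg_right (by nlinarith) (by positivity)
        nlinarith
      exact le_of_sq_le_sq e1 (by positivity)
    have hS0 : 0 ≤ Real.sqrt (s' * x) := Real.sqrt_nonneg _
    have hyS : y ≤ 6 * Λ ^ 2 * R * Real.sqrt (s' * x) := by
      have e1 : Real.sqrt (s' * x) ≤ R * Real.sqrt (s' * x) := by nlinarith
      have e2 : 3 * Λ ^ 2 * (x + Real.sqrt (s' * x)) ≤
          3 * Λ ^ 2 * (R * Real.sqrt (s' * x) + R * Real.sqrt (s' * x)) :=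
        mul_le_mul_of_nonneg_left (by linarith) (by positivity)
      calc y ≤ 3 * Λ ^ 2 * (x + Real.sqrt (s' * x)) := hst
        _ ≤ _ := e2
        _ = 6 * Λ ^ 2 * R * Real.sqrt (s' * x) := by ring
    have hy2 : y ^ 2 ≤ (6 * Λ) ^ 4 * R ^ 2 * (s' * x) := by
      calc y ^ 2 ≤ (6 * Λ ^ 2 * R * Real.sqrt (s' * x)) ^ 2 := pow_le_pow_left₀ hy0 hyS 2
        _ = 36 * Λ ^ 4 * R ^ 2 * (s' * x) := by
            rw [mul_pow, Real.sq_sqrt (by positivity)]
            ring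
        _ ≤ (6 * Λ) ^ 4 * R ^ 2 * (s' * x) := by
            refine mul_le_mul_of_nonneg_right ?_ (by positivity)
            refine mul_le_mul_of_nonneg_right ?_ (by positivity)
            rw [mul_pow]
            have : 0 ≤ Λ ^ 4 := by positivity
            nlinarith
    have h6Λ : 1 ≤ 6 * Λ := by linarith
    have hK1 : (6 * Λ) ^ (4 + 2 * K) = (6 * Λ) ^ 4 * R ^ 2 := by
      rw [pow_add, hR, ← pow_mul, mul_comm 2 K]
    have h2h : 1 ≤ 2 ^ h := Nat.one_le_two_pow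
    constructor
    · -- the first bound
      have e1 : y ^ 2 ≤ ((6 * Λ) ^ (4 + 2 * K + K) * s') ^ 2 := by
        calc y ^ 2 ≤ (6 * Λ) ^ 4 * R ^ 2 * (s' * x) := hy2
          _ ≤ (6 * Λ) ^ 4 * R ^ 2 * (s' * (R * s')) := by
              refine mul_le_mul_of_nonneg_left ?_ (by positivity)
              exact mul_le_mul_of_nonneg_left i1 (by linarith)
          _ = (6 * Λ) ^ (4 + 2 * K + K) * s' ^ 2 := by
              rw [pow_add (6 * Λ) (4 + 2 * K) K, hK1, ← hR]
              ring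
          _ ≤ ((6 * Λ) ^ (4 + 2 * K + K)) ^ 2 * s' ^ 2 := by
              refine mul_le_mul_of_nonneg_right ?_ (by positivity)
              have : 1 ≤ (6 * Λ) ^ (4 + 2 * K + K) := one_le_pow₀ h6Λ
              nlinarith
          _ = _ := (mul_pow _ _ _).symm
      refine (le_of_sq_le_sq e1 (by positivity)).trans ?_
      refine mul_le_mul_of_nonneg_right (pow_le_pow_right₀ h6Λ ?_) (by linarith)
      have : 4 + 2 * K ≤ (4 + 2 * K) * 2 ^ h := Nat.le_mul_of_pos_right _ (by omega)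
      omega
    · have e1 : y ^ 2 ^ (h + 1) = (y ^ 2) ^ 2 ^ h := by
        rw [← pow_mul, pow_succ, mul_comm]
      have e2 : 2 ^ (h + 1) - 1 = 2 ^ h + (2 ^ h - 1) := by
        rw [pow_succ]
        omega
      have hE0 : (0 : ℝ) ≤ (E : ℝ) + 1 := by positivity
      calc y ^ 2 ^ (h + 1) = (y ^ 2) ^ 2 ^ h := e1
        _ ≤ ((6 * Λ) ^ 4 * R ^ 2 * (s' * x)) ^ 2 ^ h := pow_le_pow_left₀ (by positivity) hy2 _
        _ = ((6 * Λ) ^ (4 + 2 * K)) ^ 2 ^ h * s' ^ 2 ^ h * x ^ 2 ^ h := by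
            rw [← hK1, mul_pow ((6 * Λ) ^ (4 + 2 * K)), mul_pow s', mul_assoc]
        _ ≤ ((6 * Λ) ^ (4 + 2 * K)) ^ 2 ^ h * s' ^ 2 ^ h *
            ((6 * Λ) ^ K * s' ^ (2 ^ h - 1) * ((E : ℝ) + 1)) :=
            mul_le_mul_of_nonneg_left i2 (by positivity)
        _ = (6 * Λ) ^ ((4 + 2 * K) * 2 ^ h + K) * s' ^ (2 ^ (h + 1) - 1) * ((E : ℝ) + 1) := by
            rw [e2, pow_add (6 * Λ) ((4 + 2 * K) * 2 ^ h) K, pow_mul (6 * Λ) (4 + 2 * K), pow_add s']
            generalize (6 * Λ) ^ (4 + 2 * K) = Z1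
            generalize (6 * Λ) ^ K = Z2
            ring

end Pool.Agent.FTR
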