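import Pool.Agent.FTR.St
import Pool.Agent.FRM.Wta
import Pool.Agent.FRM.Wtb

/-!
# FTR, module REC: the recursion over the kept gates
-/

set_option autoImplicit false

namespace Pool.Agent.FTR

open Finset

private lemma Rec_exp {t : ℝ} (ht : 0 ≤ t) : Real.exp t ≤ 2 ^ ⌈2 * t⌉₊ := by
  have _ht := ht
  have h1 : t ≤ (⌈2 * t⌉₊ : ℝ) * Real.log 2 := by
    have h2 : 2 * t ≤ (⌈2 * t⌉₊ : ℝ) := Nat.le_ceil _
    have h3 : (1 / 2 : ℝ) ≤ Real.log 2 := by linarith [Real.log_two_gt_d9]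
    nlinarith
  calc Real.exp t ≤ Real.exp ((⌈2 * t⌉₊ : ℝ) * Real.log 2) := Real.exp_le_exp.2 h1
    _ = 2 ^ ⌈2 * t⌉₊ := by rw [← Real.log_pow, Real.exp_log (by positivity)]

private lemma Rec_lits_union {ι Y : Type} [DecidableEq ι] (Λ : Net ι Y)
    (C C' : Finset (ι × Bool)) (y : Y) :
    Λ.Lits (C ∪ C') y ↔ Λ.Lits C y ∧ Λ.Lits C' y := by
  constructor
  · intro h
    exact ⟨fun p hp => h p (mem_union_left _ hp), fun p hp => h p (mem_union_right _ hp)⟩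
  · rintro ⟨h, h'⟩ p hp
    rcases mem_union.1 hp with hp | hp
    · exact h p hp
    · exact h' p hp

private lemma Rec_lits_empty {ι Y : Type} (Λ : Net ι Y) (y : Y) : Λ.Lits ∅ y := fun p hp =>
  absurd hp (notMem_empty p)

private def Rec_sub {ι Y : Type} [DecidableEq ι] (Λ : Net ι Y) (𝒮 : (Y → Prop) → Prop)
    (h1 : 𝒮 fun _ => True) (h2 : ∀ P Q, 𝒮 P → 𝒮 Q → 𝒮 fun y => P y ∧ Q y) (l : ℕ) :
    Submonoid (Y → ℝ) where
  carrier := Λ.Elem 𝒮 l
  one_mem' := ⟨fun _ => True, ∅, h1, fun p hp => absurd hp (notMem_empty p), fun y => by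
    rw [KCL.ind_pos ⟨trivial, Rec_lits_empty Λ y⟩]; rfl⟩
  mul_mem' := by
    rintro f g ⟨Q, C, hQ, hC, hf⟩ ⟨Q', C', hQ', hC', hg⟩
    refine ⟨fun y => Q y ∧ Q' y, C ∪ C', h2 _ _ hQ hQ', fun p hp => ?_, fun y => ?_⟩
    · rcases mem_union.1 hp with hp | hp
      · exact hC p hp
      · exact hC' p hp
    · rw [Pi.mul_apply, hf, hg, ← KCL.ind_and]
      refine KCL.ind_congr ?_
      rw [Rec_lits_union]
      tauto

/-- a bound for all functions in `S` gives a bound for the combinations -/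
private lemma Rec_wt {Y : Type} [Fintype Y] {S : Set (Y → ℝ)} {B K : ℝ} {q g G : Y → ℝ}
    (hq : FRM.Wt S B q) (hK : 0 ≤ K) (h : ∀ s ∈ S, |∑ y, g y * s y * G y| ≤ K) :
    |∑ y, g y * q y * G y| ≤ B * K := by
  obtain ⟨n, c, s, h1, h2, h3⟩ := hq
  have h4 : ∑ y, g y * q y * G y = ∑ i, c i * ∑ y, g y * s i y * G y := by
    simp only [Finset.mul_sum]
    rw [Finset.sum_comm]
    refine Finset.sum_congr rfl fun y _ => ?_
    rw [h3, Finset.mul_sum, Finset.sum_mul]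
    exact Finset.sum_congr rfl fun i _ => by ring
  rw [h4]
  calc |∑ i, c i * ∑ y, g y * s i y * G y| ≤ ∑ i, |c i * ∑ y, g y * s i y * G y| :=
        Finset.abs_sum_le_sum_abs _ _
    _ ≤ ∑ i, |c i| * K := Finset.sum_le_sum fun i _ => by
        rw [abs_mul]
        exact mul_le_mul_of_nonneg_left (h _ (h1 i)) (abs_nonneg _)
    _ = (∑ i, |c i|) * K := by rw [Finset.sum_mul]
    _ ≤ B * K := mul_le_mul_of_nonneg_right h2 hK

/-- the weight of a leaf -/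
private lemma Rec_leaf {ι Y : Type} [DecidableEq ι] (Λ : Net ι Y) (𝒮 : (Y → Prop) → Prop)
    {Mu : ℝ} {l : ℕ} {u : ι} (hl : Λ.lev u ≤ l)
    (hown : FRM.Wt {f : Y → ℝ | ∃ Q, 𝒮 Q ∧ ∀ y, f y = KCL.ind (Q y)} Mu
      (fun y => FRM.ind (Λ.own u y))) :
    FRM.Wt (Λ.Elem 𝒮 l) Mu (fun y => FRM.ind (Λ.leaf y u)) := by
  classical
  obtain ⟨n, c, s, h1, h2, h3⟩ := hown
  set C : Finset (ι × Bool) := (Λ.ch u).filter fun p => Λ.Keep p.1 with hC
  have hlit : ∀ y, Λ.Lits C y ↔ ∀ p ∈ Λ.ch u, Λ.Keep p.1 → Λ.val p.1 y = p.2 := by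
    intro y
    constructor
    · intro h p hp hk
      exact h p (mem_filter.2 ⟨hp, hk⟩)
    · intro h p hp
      exact h p (mem_filter.1 hp).1 (mem_filter.1 hp).2
  refine ⟨n, c, fun i y => s i y * KCL.ind (Λ.Lits C y), fun i => ?_, h2, fun y => ?_⟩
  · obtain ⟨Q, hQ, hs⟩ := h1 i
    refine ⟨Q, C, hQ, fun p hp => ?_, fun y => ?_⟩
    · have hp' := mem_filter.1 hp
      exact ⟨hp'.2, (Λ.lev_lt u p hp'.1 hp'.2).trans_le hl⟩
    · show s i y * KCL.ind (Λ.Lits C y) = KCL.ind (Q y ∧ Λ.Lits C y)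
      rw [hs, KCL.ind_and]
  · have h4 : FRM.ind (Λ.leaf y u) = FRM.ind (Λ.own u y) * KCL.ind (Λ.Lits C y) := by
      by_cases hL : Λ.Lits C y
      · rw [KCL.ind_pos hL, mul_one]
        have h5 : Λ.leaf y u = Λ.own u y := by
          unfold Net.leaf
          cases ho : Λ.own u y
          · simp
          · simpa using (hlit y).1 hL
        rw [h5]
      · rw [KCL.ind_neg hL, mul_zero]
        have h5 : Λ.leaf y u = false := by
          unfold Net.leaf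
          refine decide_eq_false fun h => hL ((hlit y).2 h.2)
        rw [h5]
        rfl
    have h6 : FRM.ind (Λ.own u y) = ∑ i, c i * s i y := h3 y
    change FRM.ind (Λ.leaf y u) = ∑ i, c i * (s i y * KCL.ind (Λ.Lits C y))
    rw [h4, h6, Finset.sum_mul]
    exact Finset.sum_congr rfl fun i _ => by ring

/-- one step of the recursion -/
private lemma Rec_step (hFml : St_Fml) {C₀ : ℕ} (hA : ApxC C₀) {ι Y : Type} [Fintype ι]
    [DecidableEq ι] [Fintype Y] (Λ : Net ι Y) (𝒮 : (Y → Prop) → Prop) (G : Y → ℝ) (s : ℕ)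
    (Mu : ℝ) (h1 : 𝒮 fun _ => True) (h2 : ∀ P Q, 𝒮 P → 𝒮 Q → 𝒮 fun y => P y ∧ Q y)
    (hG : ∀ y, |G y| ≤ 1) (hs : Fintype.card ι ≤ s) (hMu : 1 ≤ Mu)
    (hown : ∀ u, FRM.Wt {f : Y → ℝ | ∃ Q, 𝒮 Q ∧ ∀ y, f y = KCL.ind (Q y)} Mu
      (fun y => FRM.ind (Λ.own u y))) (l E : ℕ)
    (hl : ∀ f ∈ Λ.Elem 𝒮 l, |∑ y, f y * G y| ≤
      (1 / 2) ^ (need C₀ s (Real.log (s + Mu + 2)) E) * Fintype.card Y) :
    ∀ f ∈ Λ.Elem 𝒮 (l + 1), |∑ y, f y * G y| ≤ (1 / 2) ^ E * Fintype.card Y := by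
  classical
  rintro f ⟨Q, C, hQ, hC, hf⟩
  obtain ⟨F, hF1, hF2⟩ := hFml ι Y Λ l C fun p hp => ⟨(hC p hp).1, Nat.lt_succ_iff.1 (hC p hp).2⟩
  let SM := Rec_sub Λ 𝒮 h1 h2 l
  let z : Y → ι → Bool := fun y u => if Λ.lev u ≤ l then Λ.leaf y u else false
  have hz : ∀ u, FRM.Wt (SM : Set (Y → ℝ)) Mu (fun y => FRM.ind (z y u)) := by
    intro u
    by_cases hu : Λ.lev u ≤ l
    · have h3 : (fun y => FRM.ind (z y u)) = fun y => FRM.ind (Λ.leaf y u) := by
        funext y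
        simp only [z, if_pos hu]
      rw [h3]
      exact Rec_leaf Λ 𝒮 hu (hown u)
    · have h3 : (fun y => FRM.ind (z y u)) = fun _ => (0 : ℝ) := by
        funext y
        simp only [z, if_neg hu]
        rfl
      rw [h3]
      exact FRM.Wta_mono (by linarith) FRM.Wta_zero
  obtain ⟨q, hq1, hq2⟩ := hA Y ι SM Mu z hMu hz F (E + 1)
  have hev : ∀ y, FRM.ind (F.eval (z y)) = KCL.ind (Λ.Lits C y) := by
    intro y
    have h3 := hF2 y (z y) fun u hu => by simp only [z, if_pos hu]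
    by_cases hL : Λ.Lits C y
    · rw [KCL.ind_pos hL, h3.2 hL]; rfl
    · have h4 : F.eval (z y) = false := by
        rw [← Bool.not_eq_true]
        exact fun h5 => hL (h3.1 h5)
      rw [KCL.ind_neg hL, h4]; rfl
  -- the weight
  set X : ℝ := Real.log (s + Mu + 2) with hX
  have hX0 : 0 ≤ X := Real.log_nonneg (by have : (0 : ℝ) ≤ s := Nat.cast_nonneg s; linarith)
  set t : ℝ := C₀ * (Real.sqrt (s * (E + 1)) + (E + 1) + 1) * X with ht
  have ht0 : 0 ≤ t := by positivity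
  have hneed : need C₀ s X E = E + 1 + ⌈2 * t⌉₊ := by
    unfold need
    congr 2
    rw [ht]; ring
  have hsz : (F.size : ℝ) ≤ s := by exact_mod_cast hF1.trans hs
  have hsz0 : (0 : ℝ) ≤ F.size := Nat.cast_nonneg _
  have hle : (C₀ : ℝ) * (Real.sqrt (F.size * ((E + 1 : ℕ) : ℝ)) + ((E + 1 : ℕ) : ℝ) + 1) *
      Real.log (F.size + Mu + 2) ≤ t := by
    rw [ht]
    push_cast
    have h5 : Real.sqrt (F.size * ((E : ℝ) + 1)) ≤ Real.sqrt (s * (E + 1)) :=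
      Real.sqrt_le_sqrt (mul_le_mul_of_nonneg_right hsz (by positivity))
    have h6 : Real.log (F.size + Mu + 2) ≤ X :=
      Real.log_le_log (by linarith) (by linarith)
    have h7 : 0 ≤ Real.log (F.size + Mu + 2) := Real.log_nonneg (by linarith)
    have h8 : (0 : ℝ) ≤ C₀ := Nat.cast_nonneg _
    refine mul_le_mul ?_ h6 h7 (by positivity)
    exact mul_le_mul_of_nonneg_left (by linarith) h8
  have hW : FRM.Wt (SM : Set (Y → ℝ)) (2 ^ ⌈2 * t⌉₊) q :=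
    FRM.Wta_mono ((Real.exp_le_exp.2 hle).trans (Rec_exp ht0)) hq1
  have hcard : (0 : ℝ) ≤ Fintype.card Y := Nat.cast_nonneg _
  -- the two parts
  have hp1 : |∑ y, KCL.ind (Q y) * q y * G y| ≤
      2 ^ ⌈2 * t⌉₊ * ((1 / 2) ^ (need C₀ s X E) * Fintype.card Y) := by
    refine Rec_wt hW (by positivity) fun s' hs' => ?_
    have hQm : (fun y => KCL.ind (Q y)) ∈ SM := ⟨Q, ∅, hQ, fun p hp => absurd hp (notMem_empty p),
      fun y => KCL.ind_congr ⟨fun h => ⟨h, Rec_lits_empty Λ y⟩, fun h => h.1⟩⟩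
    have h9 := hl _ (SM.mul_mem hQm hs')
    exact h9
  have hp2 : |∑ y, KCL.ind (Q y) * (KCL.ind (Λ.Lits C y) - q y) * G y| ≤
      (1 / 2) ^ (E + 1) * Fintype.card Y := by
    calc |∑ y, KCL.ind (Q y) * (KCL.ind (Λ.Lits C y) - q y) * G y|
        ≤ ∑ y, |KCL.ind (Q y) * (KCL.ind (Λ.Lits C y) - q y) * G y| :=
          Finset.abs_sum_le_sum_abs _ _
      _ ≤ ∑ y : Y, ((1 : ℝ) / 2) ^ (E + 1) := Finset.sum_le_sum fun y _ => by
          rw [abs_mul, abs_mul]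
          have e1 : |KCL.ind (Q y)| ≤ 1 := by
            rw [abs_of_nonneg (KCL.ind_nonneg _)]; exact KCL.ind_le_one _
          have e2 : |KCL.ind (Λ.Lits C y) - q y| ≤ (1 / 2) ^ (E + 1) := by
            rw [← hev, abs_sub_comm]; exact hq2 y
          calc |KCL.ind (Q y)| * |KCL.ind (Λ.Lits C y) - q y| * |G y|
              ≤ 1 * (1 / 2) ^ (E + 1) * 1 := by
                refine mul_le_mul (mul_le_mul e1 e2 (abs_nonneg _) (by norm_num)) (hG y)
                  (abs_nonneg _) (by positivity)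
            _ = (1 / 2) ^ (E + 1) := by ring
      _ = (1 / 2) ^ (E + 1) * Fintype.card Y := by
          rw [Finset.sum_const, nsmul_eq_mul, mul_comm, Finset.card_univ]
  have hsum : ∑ y, f y * G y = ∑ y, KCL.ind (Q y) * (KCL.ind (Λ.Lits C y) - q y) * G y +
      ∑ y, KCL.ind (Q y) * q y * G y := by
    rw [← Finset.sum_add_distrib]
    refine Finset.sum_congr rfl fun y _ => ?_
    rw [hf, KCL.ind_and]
    ring
  rw [hsum]
  have hfin : (2 : ℝ) ^ ⌈2 * t⌉₊ * ((1 / 2) ^ (need C₀ s X E) * Fintype.card Y) =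
      (1 / 2) ^ (E + 1) * Fintype.card Y := by
    rw [hneed, pow_add (1 / 2 : ℝ) (E + 1)]
    have h10 : (2 : ℝ) ^ ⌈2 * t⌉₊ * (1 / 2) ^ ⌈2 * t⌉₊ = 1 := by
      rw [← mul_pow]; norm_num
    calc (2 : ℝ) ^ ⌈2 * t⌉₊ * ((1 / 2) ^ (E + 1) * (1 / 2) ^ ⌈2 * t⌉₊ * Fintype.card Y)
        = ((2 : ℝ) ^ ⌈2 * t⌉₊ * (1 / 2) ^ ⌈2 * t⌉₊) * ((1 / 2) ^ (E + 1) * Fintype.card Y) := by
          ring
      _ = _ := by rw [h10, one_mul]
  calc |∑ y, KCL.ind (Q y) * (KCL.ind (Λ.Lits C y) - q y) * G y +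
      ∑ y, KCL.ind (Q y) * q y * G y|
      ≤ (1 / 2) ^ (E + 1) * Fintype.card Y + (1 / 2) ^ (E + 1) * Fintype.card Y :=
        (abs_add_le _ _).trans (add_le_add hp2 (hp1.trans hfin.le))
    _ = (1 / 2) ^ E * Fintype.card Y := by rw [pow_succ]; ring

theorem thm_Rec (hFml : St_Fml) : St_Rec := by
  intro C₀ hA ι Y _ _ _ Λ 𝒮 G s Mu h1 h2 hG hs hMu hown h
  induction h with
  | zero =>
    rintro E hE f ⟨Q, C, hQ, hC, hf⟩
    have hC0 : C = ∅ := Finset.eq_empty_of_forall_notMem fun p hp =>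
      absurd (hC p hp).2 (Nat.not_lt_zero _)
    have h3 : ∀ y, f y = KCL.ind (Q y) := by
      intro y
      rw [hf, hC0]
      exact KCL.ind_congr ⟨fun h => h.1, fun h => ⟨h, Rec_lits_empty Λ y⟩⟩
    have h4 := hE Q hQ
    rw [Function.iterate_zero, id] at h4
    simpa only [h3] using h4
  | succ h ih =>
    intro E hE
    rw [Function.iterate_succ_apply] at hE
    exact Rec_step hFml hA Λ 𝒮 G s Mu h1 h2 hG hs hMu hown h E
      (ih (need C₀ s (Real.log (s + Mu + 2)) E) hE)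

end Pool.Agent.FTR
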