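import Pool.Agent.FTR.St

/-!
# FTR: sizes of the tree parts of a net (Siz)
-/

set_option autoImplicit false

namespace Pool.Agent.FTR

open Finset

private def Siz_S {ι Y : Type} (Λ : Net ι Y) [DecidablePred Λ.Keep] : ℕ → ι → ℕ
  | 0, _ => 0
  | n + 1, u => 1 + ∑ p ∈ (Λ.ch u).filter (fun p => ¬ Λ.Keep p.1), Siz_S Λ n p.1

private lemma Siz_stable {ι Y : Type} (Λ : Net ι Y) [DecidablePred Λ.Keep] :
    ∀ (n m : ℕ) (u : ι), Λ.rank u < n → Λ.rank u < m → Siz_S Λ n u = Siz_S Λ m u := by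
  intro n
  induction n with
  | zero => intro m u h; omega
  | succ n ih =>
    intro m u hn hm
    obtain ⟨m, rfl⟩ : ∃ k, m = k + 1 := ⟨m - 1, by omega⟩
    simp only [Siz_S]
    congr 1
    refine Finset.sum_congr rfl fun p hp => ?_
    have := Λ.rank_lt u p (Finset.mem_filter.1 hp).1
    exact ih m p.1 (by omega) (by omega)

/-- **SIZ.** -/
theorem thm_Siz : St_Siz := by
  intro ι Y _ _ Λ _
  let siz : ι → ℕ := fun u => Siz_S Λ (Λ.rank u + 1) u
  have heq : ∀ u, siz u = 1 + ∑ p ∈ (Λ.ch u).filter (fun p => ¬ Λ.Keep p.1), siz p.1 := by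
    intro u
    show Siz_S Λ (Λ.rank u + 1) u = _
    simp only [Siz_S]
    congr 1
    refine Finset.sum_congr rfl fun p hp => ?_
    have := Λ.rank_lt u p (Finset.mem_filter.1 hp).1
    exact Siz_stable Λ _ _ p.1 (by omega) (by omega)
  refine ⟨siz, heq, ?_⟩
  have h1 : ∑ u, siz u = Fintype.card ι +
      ∑ u, ∑ p ∈ (Λ.ch u).filter (fun p => ¬ Λ.Keep p.1), siz p.1 := by
    calc ∑ u, siz u = ∑ u, (1 + ∑ p ∈ (Λ.ch u).filter (fun p => ¬ Λ.Keep p.1), siz p.1) :=
          Finset.sum_congr rfl fun u _ => heq u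
      _ = _ := by
          rw [Finset.sum_add_distrib, Finset.sum_const, Finset.card_univ, smul_eq_mul, mul_one]
  have h2 : ∑ u, ∑ p ∈ (Λ.ch u).filter (fun p => ¬ Λ.Keep p.1), siz p.1 ≤
      ∑ c ∈ univ.filter (fun c => ¬ Λ.Keep c), siz c := by
    rw [Finset.sum_sigma']
    have hinj : Set.InjOn (fun x : (_ : ι) × (ι × Bool) => x.2.1)
        (univ.sigma fun u => (Λ.ch u).filter (fun p => ¬ Λ.Keep p.1) : Finset _) := by
      rintro ⟨u, p⟩ hx ⟨u', p'⟩ hx' h
      simp only [Finset.coe_sigma, Set.mem_sigma_iff, Finset.coe_univ, Set.mem_univ, true_and,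
        Finset.mem_coe, Finset.mem_filter] at hx hx'
      obtain ⟨h3, h4⟩ := Λ.uniq u u' p hx.1 p' hx'.1 h hx.2
      subst h3
      subst h4
      rfl
    rw [← Finset.sum_image (f := siz) hinj]
    refine Finset.sum_le_sum_of_subset ?_
    intro c hc
    obtain ⟨x, hx, rfl⟩ := Finset.mem_image.1 hc
    exact Finset.mem_filter.2 ⟨Finset.mem_univ _,
      (Finset.mem_filter.1 (Finset.mem_sigma.1 hx).2).2⟩
  have h3 := Finset.sum_filter_add_sum_filter_not univ (fun c => Λ.Keep c) siz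
  have h4 : ∑ u ∈ univ.filter Λ.Keep, siz u = ∑ u ∈ univ.filter (fun c => Λ.Keep c), siz u := by
    refine Finset.sum_congr ?_ fun _ _ => rfl
    ext c
    simp only [Finset.mem_filter]
  rw [h4]
  omega

end Pool.Agent.FTR
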