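import Pool.Agent.FTR.St
import Pool.Agent.FRM.Wta

/-!
# FTR, module SYM: symmetric gates
-/

set_option autoImplicit false

namespace Pool.Agent.FTR

open Finset

private lemma Sym_const {q n : ℕ} (A : Finset (Fin q)) (hA : A.card < q) (b : Bool) :
    ∃ g : Fin q → (Fin q → Fin n → Bool) → ℕ, (∀ i ∈ A, ∀ y, g i y = 0) ∧
      (∀ i y c, g i (Function.update y i c) = g i y) ∧
      ∀ y, ∑ i, g i y = if b = true then 1 else 0 := by
  classical
  obtain ⟨i₀, hi₀⟩ : ∃ i₀, i₀ ∉ A := by
    by_contra h
    push Not at h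
    have h1 : A = univ := Finset.eq_univ_of_forall h
    rw [h1, Finset.card_univ, Fintype.card_fin] at hA
    exact lt_irrefl _ hA
  refine ⟨fun i _ => if i = i₀ then (if b = true then 1 else 0) else 0, ?_, ?_, ?_⟩
  · intro i hi y
    exact if_neg (fun h : i = i₀ => hi₀ (h ▸ hi))
  · intro i y c
    rfl
  · intro y
    rw [Finset.sum_ite_eq']
    simp

private lemma Sym_claim {V : Type} [DecidableEq V] {q n : ℕ}
    (own : V → Option (Fin q × Fin n)) (cst : V → Bool) (t : ℕ) :
    ∀ (f : (V → Bool) → Bool) (A : Finset (Fin q)), SW.DTle t f → A.card + t < q →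
    ∃ g : Fin q → (Fin q → Fin n → Bool) → ℕ, (∀ i ∈ A, ∀ y, g i y = 0) ∧
      (∀ i y c, g i (Function.update y i c) = g i y) ∧
      ∀ y, ∑ i, g i y = if f (KCL.emb own cst y) = true then 1 else 0 := by
  induction t with
  | zero =>
    rintro f A ⟨b, hb⟩ hA
    obtain ⟨g, h1, h2, h3⟩ := Sym_const (n := n) A (by omega) b
    exact ⟨g, h1, h2, fun y => by rw [h3, hb]⟩
  | succ t ih =>
    rintro f A (⟨b, hb⟩ | ⟨v, hv⟩) hA
    · obtain ⟨g, h1, h2, h3⟩ := Sym_const (n := n) A (by omega) b
      exact ⟨g, h1, h2, fun y => by rw [h3, hb]⟩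
    · have hup : ∀ y, f (KCL.emb own cst y) =
          f (Function.update (KCL.emb own cst y) v (KCL.emb own cst y v)) := by
        intro y
        rw [Function.update_eq_self]
      rcases ho : own v with _ | ⟨i₀, j⟩
      · obtain ⟨g, h1, h2, h3⟩ := ih _ A (hv (cst v)) (by omega)
        refine ⟨g, h1, h2, fun y => ?_⟩
        have h4 : KCL.emb own cst y v = cst v := by
          unfold KCL.emb
          rw [ho]
        rw [h3, hup, h4]
      · have hc : (insert i₀ A).card + t < q := by
          have := Finset.card_insert_le i₀ A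
          omega
        obtain ⟨g₁, a1, a2, a3⟩ := ih _ (insert i₀ A) (hv true) hc
        obtain ⟨g₀, b1, b2, b3⟩ := ih _ (insert i₀ A) (hv false) hc
        refine ⟨fun i y => if y i₀ j = true then g₁ i y else g₀ i y, ?_, ?_, ?_⟩
        · intro i hi y
          simp only [a1 i (mem_insert_of_mem hi), b1 i (mem_insert_of_mem hi), ite_self]
        · intro i y c
          simp only [a2, b2]
          by_cases hi : i = i₀
          · subst hi
            simp only [a1 i (mem_insert_self _ _), b1 i (mem_insert_self _ _), ite_self]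
          · rw [Function.update_of_ne (Ne.symm hi)]
        · intro y
          have h4 : KCL.emb own cst y v = y i₀ j := by
            unfold KCL.emb
            rw [ho]
          rw [hup, h4]
          by_cases hy : y i₀ j = true
          · simp only [if_pos hy, a3]
            rw [hy]
          · simp only [if_neg hy, b3]
            rw [Bool.not_eq_true] at hy
            rw [hy]

theorem thm_Sym : St_Sym := by
  classical
  intro V _ _ q n t own cst J _ U A ht hU
  choose g hg1 hg2 hg3 using fun j => Sym_claim own cst t (U j) ∅ (hU j) (by simpa using ht)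
  let F : Fin q → (Fin q → Fin n → Bool) → ℕ := fun i y => ∑ j, g j i y
  have hF1 : ∀ i y c, F i (Function.update y i c) = F i y := by
    intro i y c
    exact Finset.sum_congr rfl fun j _ => hg2 j i y c
  have hgle : ∀ j i y, g j i y ≤ 1 := by
    intro j i y
    have h1 : g j i y ≤ ∑ i, g j i y :=
      Finset.single_le_sum (f := fun i => g j i y) (fun i _ => Nat.zero_le _) (mem_univ i)
    rw [hg3] at h1
    refine h1.trans ?_
    split_ifs <;> simp
  have hF2 : ∀ i y, F i y < Fintype.card J + 1 := by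
    intro i y
    have h1 : F i y ≤ ∑ j : J, 1 := Finset.sum_le_sum fun j _ => hgle j i y
    rw [Finset.sum_const, smul_eq_mul, mul_one, Finset.card_univ] at h1
    omega
  have hF3 : ∀ y, Nat.card {j // U j (KCL.emb own cst y) = true} = ∑ i, F i y := by
    intro y
    rw [Finset.sum_comm, Nat.card_eq_fintype_card, Fintype.card_subtype,
      Finset.card_filter]
    exact Finset.sum_congr rfl fun j _ => (hg3 j y).symm
  -- the sum over all values
  have hsum : (fun y => FRM.ind (A (Nat.card {j // U j (KCL.emb own cst y) = true}))) =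
      fun y => ∑ τ ∈ (univ : Finset (Fin q → Fin (Fintype.card J + 1))),
        FRM.ind (A (∑ i, (τ i : ℕ))) * KCL.ind (∀ i, F i y = (τ i : ℕ)) := by
    funext y
    rw [hF3]
    have h1 : ∀ τ ∈ (univ : Finset (Fin q → Fin (Fintype.card J + 1))),
        τ ≠ (fun i => ⟨F i y, hF2 i y⟩) →
        FRM.ind (A (∑ i, (τ i : ℕ))) * KCL.ind (∀ i, F i y = (τ i : ℕ)) = 0 := by
      intro τ _ hτ
      rw [KCL.ind_neg, mul_zero]
      intro h2
      exact hτ (funext fun i => Fin.ext (h2 i).symm)
    rw [Finset.sum_eq_single (fun i => ⟨F i y, hF2 i y⟩) h1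
      (fun h => absurd (mem_univ _) h)]
    rw [KCL.ind_pos (fun i => rfl), mul_one]
  rw [hsum]
  have hbox : ∀ τ : Fin q → Fin (Fintype.card J + 1),
      KCL.BoxClosed fun y : Fin q → Fin n → Bool => ∀ i, F i y = (τ i : ℕ) := by
    intro τ z hz i
    have h1 := hz (Function.update (fun _ => false) i true) ⟨i, by simp⟩ i
    have h2 : KCL.vtx z (Function.update (fun _ => false) i true) =
        Function.update (KCL.vtx z fun _ => false) i (z i true) := by
      funext k
      by_cases hk : k = i
      · subst hk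
        simp [KCL.vtx]
      · simp [KCL.vtx, Function.update_of_ne hk]
    rw [h2, hF1] at h1
    exact h1
  have hWt : FRM.Wt {f : (Fin q → Fin n → Bool) → ℝ | ∃ Q, KCL.BoxClosed Q ∧
      ∀ y, f y = KCL.ind (Q y)} (∑ τ ∈ (univ : Finset (Fin q → Fin (Fintype.card J + 1))), 1)
      (fun y => ∑ τ ∈ (univ : Finset (Fin q → Fin (Fintype.card J + 1))),
        FRM.ind (A (∑ i, (τ i : ℕ))) * KCL.ind (∀ i, F i y = (τ i : ℕ))) := by
    refine FRM.Wta_sum _ fun τ _ => ?_
    have h1 : FRM.Wt {f : (Fin q → Fin n → Bool) → ℝ | ∃ Q, KCL.BoxClosed Q ∧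
        ∀ y, f y = KCL.ind (Q y)} 1 (fun y => KCL.ind (∀ i, F i y = (τ i : ℕ))) :=
      FRM.Wta_mem ⟨_, hbox τ, fun y => rfl⟩
    refine FRM.Wta_mono ?_ (FRM.Wta_smul (FRM.ind (A (∑ i, (τ i : ℕ)))) h1)
    rw [mul_one]
    unfold FRM.ind
    split_ifs <;> simp
  refine FRM.Wta_mono (le_of_eq ?_) hWt
  rw [Finset.sum_const, Finset.card_univ, Fintype.card_fun, Fintype.card_fin, Fintype.card_fin,
    nsmul_eq_mul, mul_one]
  push_cast
  rfl

end Pool.Agent.FTR
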