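import Pool.Agent.FTR.Main
import Pool.Agent.FTR.Siz
import Pool.Agent.FTR.Fml
import Pool.Agent.FTR.Rec
import Pool.Agent.FTR.Sym
import Pool.Agent.FTR.Num

/-!
# The main theorem without hypotheses
-/

set_option autoImplicit false

namespace Pool.Agent.FTR

/-- **The main theorem.** -/
theorem all_main (m w D c d r : ℕ) (hm : 2 ≤ m) :
    ∃ K : ℕ, ∀ a b s k L S : ℕ, K ≤ b →
    ∀ (C : Circ m w D (Fin a × Fin b) S) (H M : Finset (Fin S)),
      C.Bounded H M (b ^ c) d s k r →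
      (1 + (1 / 2 : ℝ) ^ L) / 2 * 2 ^ (a * b) ≤
        Nat.card {x : Fin a × Fin b → Bool // C.Accepts x ↔ OddMaj x} →
      ((a : ℝ) / b) ^ 2 ^ (r + 1) ≤
        (K * Real.log (s + a + b + 2)) ^ K * (s + k + L + 1) ^ (2 ^ (r + 1) - 1) *
          (k + L + 1) :=
  Main_thm thm_Sym (thm_Rec (thm_Fml thm_Siz)) thm_Num m w D c d r hm

end Pool.Agent.FTR
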