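import Pool.Agent.FTR.Gates

/-!
# The bound below the common decision tree
-/

set_option autoImplicit false
set_option linter.unusedSectionVars false

namespace Pool.Agent.FTR

open Finset Pool.Agent.KCL Pool.Agent.SW Pool.Agent.Helper32.QS Pool.Agent.ALM2

namespace Circ

variable {m w D S N d s k r q n t : ℕ} {V : Type} [Fintype V] [DecidableEq V]
  {C : Circ m w D V S} {H M : Finset (Fin S)}

/-- **The leaves.** -/
theorem leaf_corr (hSym : St_Sym) (hRec : St_Rec) {C₀ : ℕ} (hApx : ApxC C₀)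
    (hC : C.Bounded H M N d s k r) (hq1 : 1 ≤ q) (hq2 : 2 ≤ q)
    (hqt : t < q) (ht : 1 ≤ t) (hm : m ≠ 0)
    (hZB : ZB (w * (m * (D * t))) (D * t) m.primeFactorsList.length ≤ q)
    (own : V → Option (Fin q × Fin n)) (cst : V → Bool)
    (G : (Fin q → Fin n → Bool) → ℝ) (hG : ∀ y, |G y| ≤ 1) {Mu : ℝ}
    (hMu : Mu = ((Fintype.card V + N + 1 : ℕ) : ℝ) ^ q) {E : ℕ}
    (hB : ∀ Q : (Fin q → Fin n → Bool) → Prop, BoxClosed Q → |∑ y, ind (Q y) * G y| ≤
      (1 / 2) ^ ((need C₀ s (Real.log (s + Mu + 2)))^[r + 1] E) *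
        Fintype.card (Fin q → Fin n → Bool))
    (v : Fin S → Bool) (f : Fin S → (V → Bool) → Bool) (hf : ∀ g, C.Low H g → DTle t (f g))
    (H₀ : (V → Bool) → Prop) (hH₀ : CubeClosed q H₀) :
    |∑ y, ind (H₀ (emb own cst y) ∧ C.Phi H M v (emb own cst y) fun g => f g (emb own cst y)) *
      G y| ≤ (1 / 2) ^ E * Fintype.card (Fin q → Fin n → Bool) := by
  classical
  have hMu1 : 1 ≤ Mu := by
    rw [hMu]
    refine one_le_pow₀ ?_
    have : 1 ≤ Fintype.card V + N + 1 := by omega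
    exact_mod_cast this
  choose σ o ch h1 h2 h3 h4 using
    exists_data hSym hC hq1 hq2 hqt ht hm hZB own cst v f hf
  obtain ⟨lev, hlev⟩ := hC.path_reused
  have hnM : ∀ g, g ∈ H → ¬ C.Fb H M g → g ∉ M := fun g hg h hM => h ⟨Or.inl hg, Or.inl hM⟩
  let Λ : Net {g // g ∈ H} (Fin q → Fin n → Bool) :=
    { val := C.gval H M v f own cst
      sgn := σ
      own := o
      ch := ch
      Keep := fun u => C.Fb H M u.1 ∨ C.Reused u.1
      lev := fun u => lev u.1
      rank := fun u => C.level u.1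
      val_iff := h1
      rank_lt := fun u p hp => C.level_lt _ _ (h2 u p hp).1
      lev_le := fun u p hp => ((hlev u.1 u.2).2 p.1.1 p.1.2 (hnM _ p.1.2 (h2 u p hp).2)
        (h2 u p hp).1).1
      lev_lt := fun u p hp hK => ((hlev u.1 u.2).2 p.1.1 p.1.2 (hnM _ p.1.2 (h2 u p hp).2)
        (h2 u p hp).1).2 (hK.resolve_left (h2 u p hp).2)
      uniq := by
        intro u u' p hp p' hp' hpp hK
        have hre : ¬ C.Reused p.1.1 := fun h => hK (Or.inr h)
        have hu : u = u' := by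
          by_contra hne
          refine hre ⟨u.1, u'.1, fun h => hne (Subtype.ext h), (h2 u p hp).1, ?_⟩
          rw [hpp]
          exact (h2 u' p' hp').1
        subst hu
        exact ⟨rfl, h3 u p hp p' hp' hpp⟩ }
  -- the tests among the guessed gates
  let Z : (V → Bool) → Prop := fun x => ∀ g : {g // C.Fb H M g ∧ g ∉ H},
    ((C.gate g.1).Fires (Sum.elim x (C.top H M v x fun g => f g x)) ↔ v g.1 = true)
  have hZ : CubeClosed q Z := CubeClosed.all fun g =>
    closed_fires ht hm hC hZB v f hf g.1 (g.2.1.1.elim (fun h => absurd h g.2.2) id) (v g.1)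
  have hout' : ∀ g, (Sum.inr C.out : V ⊕ Fin S) = Sum.inr g → g ∈ H → C.Fb H M g := by
    intro g hg hgH
    exact ⟨Or.inl hgH, Or.inr (Sum.inr_injective hg).symm⟩
  have hcl := closed_value hq1 hq2 hqt ht hm hC hZB v f hf (Sum.inr C.out) hout' true
  let F : Finset ({g // g ∈ H} × Bool) := univ.filter fun p => C.Fb H M p.1.1 ∧ p.2 = v p.1.1
  have hFl : ∀ y, (Z (emb own cst y) ∧ Λ.Lits F y) ↔ ∀ g, C.Fb H M g →
      ((C.gate g).Fires (Sum.elim (emb own cst y) (C.wval H M v f own cst y)) ↔ v g = true) := by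
    intro y
    have e1 : ∀ g (hg : g ∈ H), C.gval H M v f own cst ⟨g, hg⟩ y = v g ↔
        ((C.gate g).Fires (Sum.elim (emb own cst y) (C.wval H M v f own cst y)) ↔
          v g = true) := by
      intro g hg
      rw [← gval_iff v f own cst ⟨g, hg⟩ y]
      exact Bool.eq_iff_iff
    constructor
    · rintro ⟨h0, h5⟩ g hg
      by_cases hgH : g ∈ H
      · rw [← e1 g hgH]
        exact h5 (⟨g, hgH⟩, v g) (Finset.mem_filter.mpr ⟨Finset.mem_univ _, hg, rfl⟩)
      · exact h0 ⟨g, hg, hgH⟩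
    · intro h5
      refine ⟨fun g => h5 g.1 g.2.1, fun p hp => ?_⟩
      obtain ⟨h6, h7⟩ := (Finset.mem_filter.mp hp).2
      rw [h7]
      exact (e1 p.1.1 p.1.2).mpr (h5 _ h6)
  have hcard : Fintype.card {g // g ∈ H} ≤ s := by
    rw [Fintype.card_coe]
    exact hC.card_upper
  have hq0 : 0 < q := hq1
  refine hRec C₀ hApx {g // g ∈ H} (Fin q → Fin n → Bool) Λ BoxClosed G s Mu
    (fun _ _ => trivial) (fun P Q hP hQ z hz => ⟨hP z fun ω hω => (hz ω hω).1,
      hQ z fun ω hω => (hz ω hω).2⟩) hG hcard hMu1 ?_ (r + 1) E hB _ ?_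
  · intro u
    have h5 := h4 u
    rw [← hMu] at h5
    exact h5
  · refine ⟨fun y => (H₀ (emb own cst y) ∧ Z (emb own cst y)) ∧
      C.wval H M v f own cst y C.out = true, F, ?_, ?_, ?_⟩
    · exact boxClosed_emb own cst _ ((hH₀.and hZ).and hcl)
    · intro p hp
      obtain ⟨h5, -⟩ := (Finset.mem_filter.mp hp).2
      exact ⟨Or.inl h5, Nat.lt_succ_of_le (hlev p.1.1 p.1.2).1⟩
    · intro y
      refine ind_congr ?_
      have h6 := hFl y
      constructor
      · rintro ⟨h7, h8, h9⟩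
        have h10 := h6.mpr h8
        exact ⟨⟨⟨h7, h10.1⟩, h9⟩, h10.2⟩
      · rintro ⟨⟨⟨h7, h8⟩, h9⟩, h10⟩
        exact ⟨h7, h6.mp ⟨h8, h10⟩, h9⟩

end Circ

end Pool.Agent.FTR
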