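import Pool.Agent.FTR.Base
import Pool.Agent.ALM.Tree
import Pool.Agent.KCL.Levels

/-!
# The correlation of a circuit below a good restriction
-/

set_option autoImplicit false
set_option linter.unusedSectionVars false

namespace Pool.Agent.FTR

open Finset Pool.Agent.KCL Pool.Agent.SW Pool.Agent.Helper32.QS Pool.Agent.ALM

namespace Circ

variable {m w D S N d s k r q n t : ℕ} {V : Type} [Fintype V] {C : Circ m w D V S}
  {H M : Finset (Fin S)}

lemma top_self (v : Fin S → Bool) (x : V → Bool) :
    C.top H M v x ((C.fix (C.Fb H M) v).run x) = (C.fix (C.Fb H M) v).run x := by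
  classical
  refine fix_run_eq C ?_ ?_
  · intro g hg
    show _ = if C.Fb H M g then v g else _
    by_cases hfb : C.Fb H M g
    · rw [if_pos hfb, fix_run_pos C v x hfb]
    · rw [if_neg hfb]
  · intro g hg
    exact fix_run_neg C v x fun h => hg (Or.inl h)

/-- The values of the feedback gates are correct if and only if they are the values in the run. -/
lemma phi_iff (v : Fin S → Bool) (x : V → Bool) :
    C.Phi H M v x ((C.fix (C.Fb H M) v).run x) ↔
      (∀ g, C.Fb H M g → C.run x g = v g) ∧ C.run x C.out = true := by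
  unfold Phi
  rw [top_self]
  constructor
  · rintro ⟨h1, h2⟩
    have hrun : C.run x = (C.fix (C.Fb H M) v).run x := by
      refine run_eq fun g => ?_
      by_cases hg : C.Fb H M g
      · rw [fix_run_pos C v x hg]
        exact (h1 g hg).symm
      · exact fix_run_neg C v x hg
    refine ⟨fun g hg => ?_, ?_⟩
    · rw [hrun, fix_run_pos C v x hg]
    · rw [hrun]
      exact h2
  · rintro ⟨h1, h2⟩
    have hrun : (C.fix (C.Fb H M) v).run x = C.run x :=
      fix_run_eq C h1 fun g _ => C.isRun_run x g
    rw [hrun]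
    refine ⟨fun g hg => ?_, h2⟩
    rw [← h1 g hg]
    exact (C.isRun_run x g).symm

/-- The values of the feedback gates, as a function on all gates. -/
noncomputable def ext (C : Circ m w D V S) (H M : Finset (Fin S)) (v : {g // C.Fb H M g} → Bool)
    (g : Fin S) : Bool := by
  classical
  exact if h : C.Fb H M g then v ⟨g, h⟩ else false

lemma ext_pos (v : {g // C.Fb H M g} → Bool) {g : Fin S} (hg : C.Fb H M g) :
    C.ext H M v g = v ⟨g, hg⟩ := by
  unfold ext
  exact dif_pos hg

/-- Splitting according to the values of the feedback gates. -/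
lemma ind_accepts [Fintype {g // C.Fb H M g}] [DecidableEq {g // C.Fb H M g}] (x : V → Bool) :
    ind (C.Accepts x) = ∑ v : {g // C.Fb H M g} → Bool,
      ind (C.Phi H M (C.ext H M v) x ((C.fix (C.Fb H M) (C.ext H M v)).run x)) := by
  classical
  rw [Finset.sum_eq_single fun g : {g // C.Fb H M g} => C.run x g.1]
  · refine ind_congr ?_
    rw [phi_iff, accepts_iff]
    constructor
    · intro h
      refine ⟨fun g hg => ?_, h⟩
      rw [ext_pos _ hg]
    · exact fun h => h.2
  · intro v _ hv
    refine ind_neg ?_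
    rw [phi_iff]
    rintro ⟨h1, _⟩
    refine hv (funext fun g => ?_)
    rw [h1 g.1 g.2, ext_pos _ g.2]
  · intro h
    exact absurd (Finset.mem_univ _) h

open Classical in
/-- The lower gates, as a family of functions indexed by `Fin N`. -/
noncomputable def lowF (C : Circ m w D V S) (H M : Finset (Fin S)) (e : {g // C.Low H g} ↪ Fin N)
    (v : Fin S → Bool) (j : Fin N) (x : V → Bool) : Bool :=
  if hj : ∃ g, e g = j then (C.fix (C.Fb H M) v).run x hj.choose.1 else false

open Classical in
/-- The levels of the lower gates. -/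
noncomputable def lowLev (C : Circ m w D V S) (H : Finset (Fin S)) (e : {g // C.Low H g} ↪ Fin N)
    (lev : Fin S → ℕ) (j : Fin N) : ℕ :=
  if hj : ∃ g, e g = j then lev hj.choose.1 else 0

lemma lowF_e (e : {g // C.Low H g} ↪ Fin N) (v : Fin S → Bool) (g : {g // C.Low H g})
    (x : V → Bool) : C.lowF H M e v (e g) x = (C.fix (C.Fb H M) v).run x g.1 := by
  have hj : ∃ g', e g' = e g := ⟨g, rfl⟩
  unfold lowF
  rw [dif_pos hj]
  have h1 : hj.choose = g := e.injective hj.choose_spec
  rw [h1]

lemma lowLev_e (e : {g // C.Low H g} ↪ Fin N) (lev : Fin S → ℕ) (g : {g // C.Low H g}) :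
    C.lowLev H e lev (e g) = lev g.1 := by
  have hj : ∃ g', e g' = e g := ⟨g, rfl⟩
  unfold lowLev
  rw [dif_pos hj]
  have h1 : hj.choose = g := e.injective hj.choose_spec
  rw [h1]

/-- The lower gates satisfy the conditions of the switching lemma. -/
lemma lowF_ok [DecidableEq V] (hC : C.Bounded H M N d s k r) (e : {g // C.Low H g} ↪ Fin N)
    (v : Fin S → Bool) (lev : Fin S → ℕ)
    (hlev : ∀ g, C.Low H g → ∀ g', C.Low H g' → (C.gate g).Reads (Sum.inr g') → lev g' < lev g)
    (j : Fin N) : GateOK (C.lowLev H e lev) (C.lowF H M e v) j := by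
  by_cases hj : ∃ g, e g = j
  · obtain ⟨g, rfl⟩ := hj
    set R : (V → Bool) → Fin S → Bool := fun x => (C.fix (C.Fb H M) v).run x with hR
    have hfire : ∀ x, C.lowF H M e v (e g) x = true ↔
        (C.gate g.1).Fires (Sum.elim x (R x)) := by
      intro x
      rw [lowF_e]
      exact fix_run_neg C v x (low_not_fb g.2)
    -- the inputs
    have hin : ∀ i, (C.gate g.1).Reads i → DTle 1 (fun x => Sum.elim x (R x) i) ∨
        ∃ j, C.lowLev H e lev j < C.lowLev H e lev (e g) ∧
          (fun x => Sum.elim x (R x) i) = C.lowF H M e v j := by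
      intro i hi
      rcases i with u | g'
      · left
        refine Or.inr ⟨u, fun b => ⟨b, fun x => ?_⟩⟩
        show Function.update x u b u = b
        rw [Function.update_self]
      · by_cases hfb : C.Fb H M g'
        · left
          refine DTle.of_const ⟨v g', fun x => ?_⟩
          exact fix_run_pos C v x hfb
        · right
          have hlow : C.Low H g' :=
            ⟨fun h => hfb ⟨Or.inl h, Or.inl (hC.marked g' g.1 (Or.inl h) hi (Or.inl g.2.1))⟩,
              fun h => hfb ⟨Or.inr h, Or.inl (hC.marked g' g.1 (Or.inr h) hi (Or.inl g.2.1))⟩⟩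
          refine ⟨e ⟨g', hlow⟩, ?_, ?_⟩
          · rw [lowLev_e, lowLev_e]
            exact hlev g.1 g.2 g' hlow hi
          · funext x
            exact (lowF_e e v ⟨g', hlow⟩ x).symm
    have hAex : ∀ Q : Set (V ⊕ Fin S), (∀ i ∈ Q, (C.gate g.1).Reads i) →
        ∀ a ∈ ((fun i x => Sum.elim x (R x) i) '' Q : Set ((V → Bool) → Bool)), DTle 1 a ∨
        ∃ j, C.lowLev H e lev j < C.lowLev H e lev (e g) ∧ a = C.lowF H M e v j := by
      rintro Q hQ _ ⟨i, hi, rfl⟩
      exact hin i (hQ i hi)
    cases hgate : C.gate g.1 with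
    | nor Q =>
      refine ⟨_, hAex Q (fun i hi => by rw [hgate]; exact hi), Or.inr (Or.inr fun x => ?_)⟩
      rw [hfire, hgate]
      show (∀ i ∈ Q, _) ↔ _
      rw [Set.forall_mem_image]
    | and Q =>
      refine ⟨_, hAex Q (fun i hi => by rw [hgate]; exact hi), Or.inr (Or.inl fun x => ?_)⟩
      rw [hfire, hgate]
      show (∀ i ∈ Q, _) ↔ _
      rw [Set.forall_mem_image]
    | or Q =>
      refine ⟨_, hAex Q (fun i hi => by rw [hgate]; exact hi), Or.inl fun x => ?_⟩
      rw [hfire, hgate]
      show (∃ i ∈ Q, _) ↔ _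
      rw [Set.exists_mem_image]
    | sym Q A =>
      exact absurd (hC.sym_mem g.1 (by rw [hgate]; trivial)) g.2.1
    | test c A =>
      exact absurd (by rw [hgate]; trivial) g.2.2
  · refine gateOK_const _ _ _ false fun x => ?_
    unfold lowF
    rw [dif_neg hj]

/-- The number of guessed gates. -/
lemma card_fb (hC : C.Bounded H M N d s k r) : Nat.card {g // C.Fb H M g} ≤ k + 1 := by
  classical
  rw [Nat.card_eq_fintype_card, Fintype.card_subtype]
  refine (Finset.card_le_card (t := insert C.out M) ?_).trans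
    ((Finset.card_insert_le _ _).trans (Nat.add_le_add_right hC.card_marked 1))
  intro g hg
  rcases (Finset.mem_filter.mp hg).2.2 with h | h
  · exact Finset.mem_insert_of_mem h
  · rw [h]
    exact Finset.mem_insert_self _ _

/-- Below a common decision tree of the lower gates. -/
theorem circ_corr [DecidableEq V] (hSym : St_Sym) (hRec : St_Rec) {C₀ : ℕ} (hApx : ApxC C₀)
    (hC : C.Bounded H M N d s k r) (hq2 : 2 ≤ q)
    (hqt : t < q) (ht : 1 ≤ t) (hm : m ≠ 0)
    (hZB : ZB (w * (m * (D * t))) (D * t) m.primeFactorsList.length ≤ q)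
    (own : V → Option (Fin q × Fin n)) (cst : V → Bool)
    (G : (Fin q → Fin n → Bool) → ℝ) (hG : ∀ y, |G y| ≤ 1) {Mu : ℝ}
    (hMu : Mu = ((Fintype.card V + N + 1 : ℕ) : ℝ) ^ q) {E T : ℕ}
    (hB : ∀ Q : (Fin q → Fin n → Bool) → Prop, BoxClosed Q → |∑ y, ind (Q y) * G y| ≤
      (1 / 2) ^ ((need C₀ s (Real.log (s + Mu + 2)))^[r + 1] E) *
        Fintype.card (Fin q → Fin n → Bool))
    (ρ : V → Option Bool) (hρ : ∀ y, app ρ (emb own cst y) = emb own cst y)
    (e : {g // C.Low H g} ↪ Fin N)
    (hCD : ∀ v : {g // C.Fb H M g} → Bool, CD (fun _ => True) t T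
      fun j x => C.lowF H M e (C.ext H M v) j (app ρ x)) :
    |∑ y, ind (C.Accepts (emb own cst y)) * G y| ≤
      2 ^ (k + 1) * (2 ^ T * ((1 / 2) ^ E * Fintype.card (Fin q → Fin n → Bool))) := by
  classical
  have hv : ∀ v : {g // C.Fb H M g} → Bool, |∑ y, ind (C.Phi H M (C.ext H M v) (emb own cst y)
      ((C.fix (C.Fb H M) (C.ext H M v)).run (emb own cst y))) * G y| ≤
      2 ^ T * ((1 / 2) ^ E * Fintype.card (Fin q → Fin n → Bool)) := by
    intro v
    have h1 := tree_ind hq2 (emb own cst) G (C.Low H) (C.Phi H M (C.ext H M v))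
      (fun f hf H' hH' => leaf_corr hSym hRec hApx hC (by omega) hq2 hqt ht hm hZB own cst G hG
        hMu hB (C.ext H M v) f hf H' hH') T
      (fun g x => (C.fix (C.Fb H M) (C.ext H M v)).run (app ρ x) g)
      (cd_comap (C.Low H) T _ _ (hCD v) fun g hg => ⟨e ⟨g, hg⟩, fun x => by
        rw [lowF_e]⟩) (fun _ => True) CubeClosed.true
    have h2 : ∀ y, ind (C.Phi H M (C.ext H M v) (emb own cst y)
        ((C.fix (C.Fb H M) (C.ext H M v)).run (emb own cst y))) =
        ind (True ∧ C.Phi H M (C.ext H M v) (emb own cst y) fun g =>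
          (C.fix (C.Fb H M) (C.ext H M v)).run (app ρ (emb own cst y)) g) := by
      intro y
      refine ind_congr ?_
      rw [hρ]
      exact ⟨fun h => ⟨trivial, h⟩, fun h => h.2⟩
    simp only [h2]
    exact h1
  have h1 : ∀ y, ind (C.Accepts (emb own cst y)) * G y = ∑ v : {g // C.Fb H M g} → Bool,
      ind (C.Phi H M (C.ext H M v) (emb own cst y)
        ((C.fix (C.Fb H M) (C.ext H M v)).run (emb own cst y))) * G y := by
    intro y
    rw [ind_accepts (H := H) (M := M), Finset.sum_mul]
  rw [Finset.sum_congr rfl fun y _ => h1 y, Finset.sum_comm]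
  refine (Finset.abs_sum_le_sum_abs _ _).trans ((Finset.sum_le_sum fun v _ => hv v).trans ?_)
  rw [Finset.sum_const, Finset.card_univ, Fintype.card_fun, Fintype.card_bool, nsmul_eq_mul]
  refine mul_le_mul_of_nonneg_right ?_ (by positivity)
  have hk : Fintype.card {g // C.Fb H M g} ≤ k + 1 := by
    rw [← Nat.card_eq_fintype_card]
    exact card_fb hC
  push_cast
  exact pow_le_pow_right₀ (by norm_num) hk

end Circ

end Pool.Agent.FTR
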