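import Mathlib

/-!
# Circuits with AND, OR, NOR gates, symmetric gates and tests modulo `m`
-/

set_option autoImplicit false

namespace Pool.Agent.FTR

/-- Gates whose inputs are indexed by `I`: the `NOR`, the `AND` and the `OR` of a set `R` of
inputs; `sym R A`, an arbitrary function `A` of the number of true inputs in a set `R`; and tests.
A test `test c A` is an arbitrary Boolean function `A` of the values of `w` polynomials of degree at
most `D` modulo `m` in its inputs; `c l T` is the coefficient of the product of the inputs in the
set `T`. For `w = D = 1` these are the generalised `MOD_m` gates. -/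
inductive Gate (m w D : ℕ) (I : Type) : Type
  | nor (R : Set I) : Gate m w D I
  | and (R : Set I) : Gate m w D I
  | or (R : Set I) : Gate m w D I
  | sym (R : Set I) (A : ℕ → Bool) : Gate m w D I
  | test (c : Fin w → Finset I → ZMod m) (A : (Fin w → ZMod m) → Bool) : Gate m w D I

namespace Gate

variable {m w D : ℕ} {I : Type}

/-- The gate reads the input `i`. -/
def Reads : Gate m w D I → I → Prop
  | nor R, i => i ∈ R
  | and R, i => i ∈ R
  | or R, i => i ∈ R
  | sym R _, i => i ∈ R
  | test c _, i => ∃ l T, T.card ≤ D ∧ i ∈ T ∧ c l T ≠ 0

/-- The gate is symmetric. -/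
def IsSym : Gate m w D I → Prop
  | sym _ _ => True
  | _ => False

/-- The gate is a test. -/
def IsTest : Gate m w D I → Prop
  | test _ _ => True
  | _ => False

/-- The output of the gate is true when the inputs have the values `z`. -/
def Fires [Fintype I] (z : I → Bool) : Gate m w D I → Prop
  | nor R => ∀ i ∈ R, z i = false
  | and R => ∀ i ∈ R, z i = true
  | or R => ∃ i ∈ R, z i = true
  | sym R A => A (Nat.card {i // i ∈ R ∧ z i = true}) = true
  | test c A =>
    A (fun l => ∑ T : Finset I, if T.card ≤ D ∧ ∀ i ∈ T, z i = true then c l T else 0) = true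

end Gate

/-- A circuit with `S` gates on the variables `V`. Each gate may read variables and gates of
smaller level. -/
structure Circ (m w D : ℕ) (V : Type) (S : ℕ) where
  gate : Fin S → Gate m w D (V ⊕ Fin S)
  level : Fin S → ℕ
  level_lt : ∀ g g', (gate g).Reads (Sum.inr g') → level g' < level g
  out : Fin S

namespace Circ

variable {m w D S : ℕ} {V : Type} [Fintype V]

/-- `val` is the family of the values of the gates on the input `x`. -/
def IsRun (C : Circ m w D V S) (x : V → Bool) (val : Fin S → Bool) : Prop :=
  ∀ g, val g = true ↔ (C.gate g).Fires (Sum.elim x val)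

/-- The circuit accepts `x`: the output gate has the value true. -/
def Accepts (C : Circ m w D V S) (x : V → Bool) : Prop :=
  ∃ val, C.IsRun x val ∧ val C.out = true

/-- The gate `g` is read by at least two gates. -/
def Reused (C : Circ m w D V S) (g : Fin S) : Prop :=
  ∃ g₁ g₂, g₁ ≠ g₂ ∧ (C.gate g₁).Reads (Sum.inr g) ∧ (C.gate g₂).Reads (Sum.inr g)

/-- `H` is a set of at most `s` gates, none of which is a test, that contains all symmetric gates.
There are at most `N` gates outside of `H` that are not tests, and paths of such gates have at most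
`d` gates. `M` is a set of at most `k` gates that contains all tests and gates in `H` which are
read by a gate outside of `H` or by a symmetric gate. Paths of gates in `H`, all but the first of
which are outside of `M`, contain, apart from the first gate, at most `r` gates that are read by at
least two gates. There is no other condition on the tests. -/
structure Bounded (C : Circ m w D V S) (H M : Finset (Fin S)) (N d s k r : ℕ) : Prop where
  no_test : ∀ g ∈ H, ¬ (C.gate g).IsTest
  sym_mem : ∀ g, (C.gate g).IsSym → g ∈ H
  card_upper : H.card ≤ s
  card_marked : M.card ≤ k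
  marked : ∀ g g', (g ∈ H ∨ (C.gate g).IsTest) → (C.gate g').Reads (Sum.inr g) →
    (g' ∉ H ∨ (C.gate g').IsSym) → g ∈ M
  path_reused : ∃ lev : Fin S → ℕ, ∀ g ∈ H, lev g ≤ r ∧
    ∀ g' ∈ H, g' ∉ M → (C.gate g).Reads (Sum.inr g') →
      lev g' ≤ lev g ∧ (C.Reused g' → lev g' < lev g)
  card_lower : Nat.card {g // g ∉ H ∧ ¬ (C.gate g).IsTest} ≤ N
  path_lower : ∃ lev : Fin S → ℕ, ∀ g, g ∉ H → ¬ (C.gate g).IsTest → lev g < d ∧
    ∀ g', g' ∉ H → ¬ (C.gate g').IsTest → (C.gate g).Reads (Sum.inr g') → lev g' < lev g

end Circ

/-- An odd number of rows of the matrix `x` have at least half of their entries true. -/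
def OddMaj {a b : ℕ} (x : Fin a × Fin b → Bool) : Prop :=
  Odd (Finset.univ.filter fun j : Fin a =>
    b ≤ 2 * (Finset.univ.filter fun l : Fin b => x (j, l) = true).card).card

end Pool.Agent.FTR
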