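import Pool.Agent.FTR.Core
import Pool.Agent.FRM.AllV

/-!
# The uniform average
-/

set_option autoImplicit false
set_option linter.unusedSectionVars false

namespace Pool.Agent.FTR

open Finset Pool.Agent.KCL Pool.Agent.SW Pool.Agent.Helper32.QS Pool.Agent.ALM

lemma Fin_gip_abs {q n : ℕ} (y : Fin q → Fin n → Bool) : |gip y| ≤ 1 := by
  rcases gip_pm y with h | h <;> rw [h] <;> norm_num

namespace Circ

variable {m w D S N d s k r q n t : ℕ}

/-- The correlation and the number of agreements. -/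
lemma agree_sum {a b : ℕ} (C : Circ m w D (Fin a × Fin b) S) :
    ∑ x : Fin a × Fin b → Bool, (1 - 2 * ind (C.Accepts x)) * (-1) ^ FRM.rws x =
      2 * (Nat.card {x : Fin a × Fin b → Bool // C.Accepts x ↔ OddMaj x} : ℝ) - 2 ^ (a * b) := by
  classical
  have h1 : ∀ x : Fin a × Fin b → Bool, (1 - 2 * ind (C.Accepts x)) * (-1 : ℝ) ^ FRM.rws x =
      2 * (if (C.Accepts x ↔ OddMaj x) then 1 else 0) - 1 := by
    intro x
    have e0 : OddMaj x ↔ Odd (FRM.rws x) := Iff.rfl
    by_cases h2 : C.Accepts x <;> by_cases h3 : Odd (FRM.rws x)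
    · rw [ind_pos h2, h3.neg_one_pow, if_pos (by rw [e0]; exact iff_of_true h2 h3)]
      norm_num
    · rw [ind_pos h2, (Nat.not_odd_iff_even.mp h3).neg_one_pow,
        if_neg (by rw [e0]; exact fun h => h3 (h.mp h2))]
      norm_num
    · rw [ind_neg h2, h3.neg_one_pow, if_neg (by rw [e0]; exact fun h => h2 (h.mpr h3))]
      norm_num
    · rw [ind_neg h2, (Nat.not_odd_iff_even.mp h3).neg_one_pow,
        if_pos (by rw [e0]; exact iff_of_false h2 h3)]
      norm_num
  rw [Finset.sum_congr rfl fun x _ => h1 x, Finset.sum_sub_distrib, ← Finset.mul_sum,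
    Finset.sum_boole, Nat.card_eq_fintype_card, Fintype.card_subtype, Finset.sum_const,
    Finset.card_univ, Fintype.card_fun, Fintype.card_bool, Fintype.card_prod, Fintype.card_fin,
    Fintype.card_fin]
  simp

/-- **The main step.** -/
theorem core_avg {a b τ L E : ℕ} (hSym : St_Sym) (hRec : St_Rec) {C₀ : ℕ} (hApx : ApxC C₀)
    (hm : m ≠ 0) (hd : 1 ≤ d) (C : Circ m w D (Fin a × Fin b) S) (H M : Finset (Fin S))
    (hC : C.Bounded H M N d s k r)
    (hX : (1 + (1 / 2 : ℝ) ^ L) / 2 * 2 ^ (a * b) ≤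
      Nat.card {x : Fin a × Fin b → Bool // C.Accepts x ↔ OddMaj x})
    {p γ μ : ℝ} (P : MPar p γ μ t) (hN : (N : ℝ) ≤ μ ^ (t + 1)) (hq : 2 ≤ q)
    (hqt : t < q) (hZB : ZB (w * (m * (D * t))) (D * t) m.primeFactorsList.length ≤ q)
    (hqb : 8 * ((q : ℝ) + 1) ≤ p ^ d * b)
    (hsmall : (2 : ℝ) ^ (k + 1) * (d * (2 ^ (d * τ) * (γ * μ) ^ (τ + 1))) ≤ (1 / 2) ^ (L + 2))
    (hE : L + 5 + k + d * τ ≤ E) {Mu : ℝ}
    (hMu : Mu = ((a * b + N + 1 : ℕ) : ℝ) ^ q)
    (htail : 2 ^ n * Real.exp (-(a / (2 ^ (q + 3) * (b + 1)))) ≤ (1 / 2 : ℝ) ^ (L + 2))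
    (hnE : 8 ^ q * ((need C₀ s (Real.log (s + Mu + 2)))^[r + 1] E + Nat.clog 2 (q + 1)) ≤ n) :
    False := by
  classical
  have hCcard : Fintype.card {g // C.Low H g} ≤ Fintype.card (Fin N) := by
    rw [Fintype.card_fin, ← Nat.card_eq_fintype_card]
    exact hC.card_lower
  obtain ⟨e⟩ := Function.Embedding.nonempty_of_card_le hCcard
  obtain ⟨lev, hlev⟩ := hC.path_lower
  have hp0 : 0 < p ^ d := pow_pos P.p0 _
  have hp1 : p ^ d ≤ 1 := pow_le_one₀ P.p0.le P.p1.le
  -- the good restrictions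
  let Good : (Fin a × Fin b → Option Bool) → Prop := fun ρ =>
    ∀ v : {g // C.Fb H M g} → Bool, CD (fun _ => True) t (d * τ)
      fun j x => C.lowF H M e (C.ext H M v) j (app ρ x)
  have hlevd : ∀ j, C.lowLev H e lev j < d := by
    intro j
    by_cases hj : ∃ g, e g = j
    · obtain ⟨g, rfl⟩ := hj
      rw [lowLev_e]
      exact (hlev g.1 g.2.1 g.2.2).1
    · unfold lowLev
      rw [dif_neg hj]
      exact hd
  have hGood : W (p ^ d) (fun ρ => ¬ Good ρ) ≤ (1 / 2) ^ (L + 2) := by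
    have h3 := W_exists_le hp0.le hp1 (univ : Finset ({g // C.Fb H M g} → Bool))
      (fun v (ρ : Fin a × Fin b → Option Bool) => ¬ CD (fun j => C.lowLev H e lev j < d) t
        (d * τ) fun j x => C.lowF H M e (C.ext H M v) j (app ρ x))
    have h7 := h3.trans (Finset.sum_le_sum fun v _ =>
      pool_levels P hN (C.lowLev H e lev) τ d (C.lowF H M e (C.ext H M v))
        (fun j => lowF_ok hC e _ lev
          (fun g hg g' hg' hr => (hlev g hg.1 hg.2).2 g' hg'.1 hg'.2 hr) j) d le_rfl)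
    rw [Finset.sum_const, Finset.card_univ, nsmul_eq_mul, Fintype.card_fun,
      Fintype.card_bool] at h7
    have hS : (fun j => C.lowLev H e lev j < d) = fun _ => True :=
      funext fun j => propext ⟨fun _ => trivial, fun _ => hlevd j⟩
    have h8 : W (p ^ d) (fun ρ => ¬ Good ρ) ≤ W (p ^ d) (fun ρ =>
        ∃ v ∈ (univ : Finset ({g // C.Fb H M g} → Bool)),
          ¬ CD (fun j => C.lowLev H e lev j < d) t (d * τ)
            fun j x => C.lowF H M e (C.ext H M v) j (app ρ x)) := by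
      refine W_mono hp0.le hp1 fun ρ hρ => ?_
      simp only [Good] at hρ
      push Not at hρ
      obtain ⟨v, hv⟩ := hρ
      refine ⟨v, mem_univ v, ?_⟩
      rw [hS]
      exact hv
    refine h8.trans (h7.trans (le_trans ?_ hsmall))
    have hδ := P.pos
    refine mul_le_mul_of_nonneg_right ?_ (by positivity)
    have hk : Fintype.card {g // C.Fb H M g} ≤ k + 1 := by
      rw [← Nat.card_eq_fintype_card]
      exact card_fb hC
    push_cast
    exact pow_le_pow_right₀ (by norm_num) hk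
  -- closed sets
  set Q := (need C₀ s (Real.log (s + Mu + 2)))^[r + 1] E with hQ
  set c₀ := Nat.clog 2 (q + 1) with hc₀
  have hB : ∀ P : (Fin q → Fin n → Bool) → Prop, BoxClosed P →
      |∑ y : Fin q → Fin n → Bool, ind (P y) * gip y| ≤
        (1 / 2) ^ Q * Fintype.card (Fin q → Fin n → Bool) := by
    intro P hP
    have h1 := closed_gip (by omega : 1 ≤ q) hnE P hP
    refine h1.trans (mul_le_mul_of_nonneg_right ?_ (Nat.cast_nonneg _))
    have h2 : ((q : ℝ) + 1) ≤ 2 ^ c₀ := by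
      exact_mod_cast Nat.le_pow_clog (by norm_num) (q + 1)
    calc ((q : ℝ) + 1) * (1 / 2) ^ (Q + c₀) ≤ 2 ^ c₀ * (1 / 2) ^ (Q + c₀) :=
          mul_le_mul_of_nonneg_right h2 (by positivity)
      _ = (2 * (1 / 2)) ^ c₀ * (1 / 2) ^ Q := by rw [pow_add, mul_pow]; ring
      _ = (1 / 2) ^ Q := by norm_num
  have hneed : ∀ j E', E' ≤ (need C₀ s (Real.log (s + Mu + 2)))^[j] E' := by
    intro j
    induction j with
    | zero => exact fun E' => le_rfl
    | succ j ih =>
      intro E'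
      rw [Function.iterate_succ_apply]
      refine le_trans ?_ (ih _)
      unfold need
      omega
  have hEQ : E ≤ Q := hneed (r + 1) E
  have hN' : (0 : ℝ) ≤ Fintype.card (Fin q → Fin n → Bool) := Nat.cast_nonneg _
  -- the correlation after a good restriction
  have hcorr : ∀ ρ, Good ρ → ∀ (own : Fin a × Fin b → Option (Fin q × Fin n))
      (cst : Fin a × Fin b → Bool), (∀ y, app ρ (emb own cst y) = emb own cst y) →
      |∑ y : Fin q → Fin n → Bool, (1 - 2 * ind (C.Accepts (emb own cst y))) * gip y| ≤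
        (1 / 2) ^ (L + 2) * Fintype.card (Fin q → Fin n → Bool) := by
    intro ρ hρ own cst hemb
    have h1 := circ_corr (E := E) (T := d * τ) hSym hRec hApx hC hq hqt P.r1 hm hZB own cst gip
      Fin_gip_abs (by
        rw [hMu, Fintype.card_prod, Fintype.card_fin, Fintype.card_fin]) hB ρ hemb e hρ
    have h2 := hB (fun _ => True) fun _ _ => trivial
    have h3 : ∑ y : Fin q → Fin n → Bool, (1 - 2 * ind (C.Accepts (emb own cst y))) * gip y =
        ∑ y : Fin q → Fin n → Bool, ind True * gip y -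
          2 * ∑ y : Fin q → Fin n → Bool, ind (C.Accepts (emb own cst y)) * gip y := by
      rw [Finset.mul_sum, ← Finset.sum_sub_distrib]
      refine Finset.sum_congr rfl fun y _ => ?_
      rw [ind_pos trivial]
      ring
    rw [h3]
    refine (abs_sub _ _).trans ?_
    rw [abs_mul, abs_two]
    have h4 : (1 / 2 : ℝ) ^ Q ≤ (1 / 2) ^ (L + 3) :=
      pow_le_pow_of_le_one (by norm_num) (by norm_num) (by omega)
    have h5 : (2 : ℝ) ^ (k + 1) * (2 ^ (d * τ) * ((1 / 2) ^ E *
        Fintype.card (Fin q → Fin n → Bool))) ≤ (1 / 2) ^ (L + 4) *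
          Fintype.card (Fin q → Fin n → Bool) := by
      have e1 : (1 / 2 : ℝ) ^ E ≤ (1 / 2) ^ (L + 5 + k + d * τ) :=
        pow_le_pow_of_le_one (by norm_num) (by norm_num) hE
      calc (2 : ℝ) ^ (k + 1) * (2 ^ (d * τ) * ((1 / 2) ^ E *
            Fintype.card (Fin q → Fin n → Bool)))
          = (2 ^ (k + 1) * 2 ^ (d * τ)) * (1 / 2) ^ E *
            Fintype.card (Fin q → Fin n → Bool) := by ring
        _ ≤ (2 ^ (k + 1) * 2 ^ (d * τ)) * (1 / 2) ^ (L + 5 + k + d * τ) *
            Fintype.card (Fin q → Fin n → Bool) := by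
            refine mul_le_mul_of_nonneg_right ?_ hN'
            exact mul_le_mul_of_nonneg_left e1 (by positivity)
        _ = (2 * (1 / 2)) ^ (k + 1) * (2 * (1 / 2)) ^ (d * τ) * (1 / 2) ^ (L + 4) *
            Fintype.card (Fin q → Fin n → Bool) := by
            rw [show L + 5 + k + d * τ = (k + 1) + (d * τ) + (L + 4) by ring, pow_add, pow_add,
              mul_pow, mul_pow]
            ring
        _ = _ := by norm_num
    have h6 := h1.trans h5
    have h7 : |∑ y : Fin q → Fin n → Bool, ind True * gip y| ≤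
        (1 / 2) ^ (L + 3) * Fintype.card (Fin q → Fin n → Bool) :=
      h2.trans (mul_le_mul_of_nonneg_right h4 hN')
    have h8 : (1 / 2 : ℝ) ^ (L + 3) * Fintype.card (Fin q → Fin n → Bool) +
        2 * ((1 / 2) ^ (L + 4) * Fintype.card (Fin q → Fin n → Bool)) =
        (1 / 2) ^ (L + 2) * Fintype.card (Fin q → Fin n → Bool) := by
      rw [show L + 4 = (L + 2) + 2 by ring, show L + 3 = (L + 2) + 1 by ring, pow_add _ (L + 2) 2,
        pow_add _ (L + 2) 1]
      ring
    linarith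
  -- the average
  have hF1 : ∀ x, |1 - 2 * ind (C.Accepts x)| ≤ 1 := by
    intro x
    rw [abs_le]
    have h1 := ind_nonneg (C.Accepts x)
    have h2 := ind_le_one (C.Accepts x)
    constructor <;> linarith
  have hAvg := FRM.all_Avg a b q n (p ^ d) ((1 / 2) ^ (L + 2)) ((1 / 2) ^ (L + 2)) Good
    (fun x => 1 - 2 * ind (C.Accepts x)) hp0 hp1 (by omega) hqb (by positivity) hGood hF1 hcorr
  rw [agree_sum C] at hAvg
  have h9 := (le_abs_self _).trans hAvg
  have h2pos : (0 : ℝ) < 2 ^ (a * b) := by positivity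
  have h10 : (1 / 2 : ℝ) ^ L * 2 ^ (a * b) ≤
      ((1 / 2) ^ (L + 2) + (1 / 2) ^ (L + 2) + (1 / 2) ^ (L + 2)) * 2 ^ (a * b) := by
    have e1 : (1 / 2 : ℝ) ^ L * 2 ^ (a * b) ≤
        2 * (Nat.card {x : Fin a × Fin b → Bool // C.Accepts x ↔ OddMaj x} : ℝ) -
          2 ^ (a * b) := by linarith
    refine e1.trans (h9.trans ?_)
    refine mul_le_mul_of_nonneg_right ?_ h2pos.le
    linarith
  have h11 : (1 / 2 : ℝ) ^ L ≤ (1 / 2) ^ (L + 2) + (1 / 2) ^ (L + 2) + (1 / 2) ^ (L + 2) :=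
    le_of_mul_le_mul_right h10 h2pos
  have h12 : (0 : ℝ) < (1 / 2) ^ L := by positivity
  rw [pow_add] at h11
  norm_num at h11
  linarith

end Circ

end Pool.Agent.FTR
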