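import Pool.Agent.FTR.Leaf

/-!
# The net of the gates of the upper part
-/

set_option autoImplicit false
set_option linter.unusedSectionVars false

namespace Pool.Agent.FTR

open Finset Pool.Agent.KCL Pool.Agent.SW Pool.Agent.Helper32.QS Pool.Agent.ALM2

/-- the combinations of indicators of box closed sets -/
def BoxInd (q n : ℕ) : Set ((Fin q → Fin n → Bool) → ℝ) :=
  {f | ∃ Q, BoxClosed Q ∧ ∀ y, f y = ind (Q y)}

lemma wt_boxInd {q n : ℕ} (P : (Fin q → Fin n → Bool) → Prop) (hP : BoxClosed P)
    (o : (Fin q → Fin n → Bool) → Bool) (ho : ∀ y, o y = true ↔ P y) {Mu : ℝ} (hMu : 1 ≤ Mu) :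
    FRM.Wt (BoxInd q n) Mu (fun y => FRM.ind (o y)) := by
  refine ⟨1, fun _ => 1, fun _ y => ind (P y), fun _ => ⟨P, hP, fun _ => rfl⟩, ?_, fun y => ?_⟩
  · simpa using hMu
  · rw [Fin.sum_univ_one, one_mul]
    show (if o y = true then (1 : ℝ) else 0) = ind (P y)
    by_cases h : P y
    · rw [ind_pos h, if_pos ((ho y).mpr h)]
    · rw [ind_neg h, if_neg fun h2 => h ((ho y).mp h2)]

namespace Circ

variable {m w D S N d s k r q n t : ℕ} {V : Type} [Fintype V] [DecidableEq V]
  {C : Circ m w D V S} {H M : Finset (Fin S)}

/-- the values of the gates on `emb own cst y` -/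
noncomputable def wval (C : Circ m w D V S) (H M : Finset (Fin S)) (v : Fin S → Bool)
    (f : Fin S → (V → Bool) → Bool) (own : V → Option (Fin q × Fin n)) (cst : V → Bool)
    (y : Fin q → Fin n → Bool) : Fin S → Bool :=
  C.top H M v (emb own cst y) fun g => f g (emb own cst y)

open Classical in
/-- the computed value of the gate `u` of `H` -/
noncomputable def gval (C : Circ m w D V S) (H M : Finset (Fin S)) (v : Fin S → Bool)
    (f : Fin S → (V → Bool) → Bool) (own : V → Option (Fin q × Fin n)) (cst : V → Bool)
    (u : {g // g ∈ H}) (y : Fin q → Fin n → Bool) : Bool :=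
  decide ((C.gate u.1).Fires (Sum.elim (emb own cst y) (C.wval H M v f own cst y)))

lemma gval_iff (v : Fin S → Bool) (f : Fin S → (V → Bool) → Bool)
    (own : V → Option (Fin q × Fin n)) (cst : V → Bool) (u : {g // g ∈ H})
    (y : Fin q → Fin n → Bool) : C.gval H M v f own cst u y = true ↔
      (C.gate u.1).Fires (Sum.elim (emb own cst y) (C.wval H M v f own cst y)) := by
  classical
  unfold gval
  exact decide_eq_true_iff

lemma wval_eq (v : Fin S → Bool) (f : Fin S → (V → Bool) → Bool)
    (own : V → Option (Fin q × Fin n)) (cst : V → Bool) (u : {g // g ∈ H})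
    (hu : ¬ C.Fb H M u.1) (y : Fin q → Fin n → Bool) :
    C.wval H M v f own cst y u.1 = C.gval H M v f own cst u y := by
  have h1 := top_other (C := C) (H := H) (M := M) v (emb own cst y)
    (fun g => f g (emb own cst y)) hu (fun h : C.Low H u.1 => h.1 u.2)
  exact Bool.eq_iff_iff.mpr (h1.trans (gval_iff v f own cst u y).symm)

/-- The data of one gate. -/
lemma exists_data (hSym : St_Sym) (hC : C.Bounded H M N d s k r) (hq1 : 1 ≤ q) (hq2 : 2 ≤ q)
    (hqt : t < q) (ht : 1 ≤ t) (hm : m ≠ 0)
    (hZB : ZB (w * (m * (D * t))) (D * t) m.primeFactorsList.length ≤ q)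
    (own : V → Option (Fin q × Fin n)) (cst : V → Bool)
    (v : Fin S → Bool) (f : Fin S → (V → Bool) → Bool) (hf : ∀ g, C.Low H g → DTle t (f g))
    (u : {g // g ∈ H}) :
    ∃ (σ : Bool) (o : (Fin q → Fin n → Bool) → Bool) (ch : Finset ({g // g ∈ H} × Bool)),
      (∀ y, C.gval H M v f own cst u y = σ ↔
        o y = true ∧ ∀ p ∈ ch, C.gval H M v f own cst p.1 y = p.2) ∧
      (∀ p ∈ ch, (C.gate u.1).Reads (Sum.inr p.1.1) ∧ ¬ C.Fb H M p.1.1) ∧
      (∀ p ∈ ch, ∀ p' ∈ ch, p.1 = p'.1 → p = p') ∧
      FRM.Wt (BoxInd q n) (((Fintype.card V + N + 1 : ℕ) : ℝ) ^ q) (fun y => FRM.ind (o y)) := by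
  classical
  have hMu : (1 : ℝ) ≤ ((Fintype.card V + N + 1 : ℕ) : ℝ) ^ q := by
    refine one_le_pow₀ ?_
    have : 1 ≤ Fintype.card V + N + 1 := by omega
    exact_mod_cast this
  by_cases hsym : (C.gate u.1).IsSym
  · -- a symmetric gate
    refine ⟨true, C.gval H M v f own cst u, ∅, fun y => ?_, fun p hp => ?_, fun p hp => ?_, ?_⟩
    · simp
    · exact absurd hp (Finset.notMem_empty p)
    · exact absurd hp (Finset.notMem_empty p)
    · cases hgate : C.gate u.1 with
      | nor R => rw [hgate] at hsym; exact absurd hsym id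
      | and R => rw [hgate] at hsym; exact absurd hsym id
      | or R => rw [hgate] at hsym; exact absurd hsym id
      | test c A => rw [hgate] at hsym; exact absurd hsym id
      | sym R A =>
        -- the inputs that are not constants
        let J : Type := {i : V ⊕ Fin S // i ∈ R ∧ ∀ g, i = Sum.inr g → C.Low H g}
        let J' : Type := {i : V ⊕ Fin S // i ∈ R ∧ ¬ ∀ g, i = Sum.inr g → C.Low H g}
        have hJ : Fintype.card J ≤ Fintype.card V + N := by
          have e1 : Nat.card {g // C.Low H g} ≤ N := hC.card_lower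
          rw [Nat.card_eq_fintype_card] at e1
          have e2 : Fintype.card J ≤ Fintype.card (V ⊕ {g // C.Low H g}) := by
            refine Fintype.card_le_of_injective (fun i : J => match i with
              | ⟨Sum.inl j, _⟩ => Sum.inl j
              | ⟨Sum.inr g, h⟩ => Sum.inr ⟨g, h.2 g rfl⟩) ?_
            rintro ⟨i | i, hi⟩ ⟨j | j, hj⟩ hij
            · have := Sum.inl_injective hij
              subst this
              rfl
            · exact absurd hij (by simp)
            · exact absurd hij (by simp)
            · have := Sum.inr_injective hij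
              have h2 : i = j := congrArg Subtype.val this
              subst h2
              rfl
          rw [Fintype.card_sum] at e2
          omega
        obtain ⟨n₀, hn₀⟩ : ∃ n₀ : ℕ, n₀ = Nat.card {i : J' // C.inp H M v f i.1 (fun _ => false) =
            true} := ⟨_, rfl⟩
        -- the constant inputs
        have hconst : ∀ (i : J') (x : V → Bool), C.inp H M v f i.1 x =
            C.inp H M v f i.1 fun _ => false := by
          rintro ⟨i, hi, hi'⟩ x
          rcases i with j | g
          · exact absurd (fun g hg => absurd hg (by simp)) hi'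
          · have hlow : ¬ C.Low H g := fun h => hi' fun g' hg' => by
              rw [← Sum.inr_injective hg']
              exact h
            show (if C.Fb H M g then fun _ => v g else if C.Low H g then f g
              else fun _ => false) x = (if C.Fb H M g then fun _ => v g else if C.Low H g then f g
              else fun _ => false) fun _ => false
            by_cases h1 : C.Fb H M g
            · rw [if_pos h1]
            · rw [if_neg h1, if_neg hlow]
        have hcount : ∀ x : V → Bool, Nat.card {i // i ∈ R ∧ C.inp H M v f i x = true} =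
            Nat.card {j : J // C.inp H M v f j.1 x = true} + n₀ := by
          intro x
          rw [hn₀, ← Nat.card_sum]
          refine Nat.card_congr ?_
          refine ⟨fun i => if h : ∀ g, i.1 = Sum.inr g → C.Low H g
            then Sum.inl ⟨⟨i.1, i.2.1, h⟩, i.2.2⟩
            else Sum.inr ⟨⟨i.1, i.2.1, h⟩, by
              rw [← hconst ⟨i.1, i.2.1, h⟩ x]
              exact i.2.2⟩,
            fun i => match i with
              | Sum.inl j => ⟨j.1.1, j.1.2.1, j.2⟩
              | Sum.inr j => ⟨j.1.1, j.1.2.1, by
                rw [hconst j.1 x]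
                exact j.2⟩, ?_, ?_⟩
          · rintro ⟨i, hi, hi'⟩
            by_cases h : ∀ g, i = Sum.inr g → C.Low H g
            · simp only [dif_pos h]
            · simp only [dif_neg h]
          · rintro (⟨⟨i, hi, h⟩, hi'⟩ | ⟨⟨i, hi, h⟩, hi'⟩)
            · simp only [dif_pos h]
            · simp only [dif_neg h]
        have h1 := hSym V q n t own cst J (fun j => C.inp H M v f j.1) (fun c => A (c + n₀)) hqt
          (fun j => dt_inp ht v f hf j.1)
        have h2 : ∀ y, C.gval H M v f own cst u y =
            A (Nat.card {j : J // C.inp H M v f j.1 (emb own cst y) = true} + n₀) := by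
          intro y
          refine Bool.eq_iff_iff.mpr ((gval_iff v f own cst u y).trans ?_)
          rw [← hcount]
          have h3 := Gate.fires_congr (C.gate u.1)
            (inp_eq hC v f (g := u.1) (Or.inr (by rw [hgate]; trivial)) (emb own cst y))
          refine h3.trans ?_
          rw [hgate]
          exact Iff.rfl
        obtain ⟨n₁, c, sf, e1, e2, e3⟩ := h1
        refine ⟨n₁, c, sf, e1, e2.trans ?_, fun y => ?_⟩
        · refine pow_le_pow_left₀ (by positivity) ?_ q
          have : (Fintype.card J : ℝ) ≤ Fintype.card V + N := by exact_mod_cast hJ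
          push_cast
          linarith
        · rw [← e3 y]
          show FRM.ind (C.gval H M v f own cst u y) = FRM.ind _
          rw [h2 y]
  · -- AND, OR and NOR
    obtain ⟨σ, b, R, hR, hform⟩ := (C.gate u.1).exists_form (hC.no_test _ u.2) hsym
    let good : V ⊕ Fin S → Prop := fun i => ∀ g, i = Sum.inr g → g ∈ H → C.Fb H M g
    let P : (V → Bool) → Prop := fun x => ∀ i : {i // i ∈ R ∧ good i},
      Sum.elim x (C.top H M v x fun g => f g x) i.1 = b
    have hP : CubeClosed q P := CubeClosed.all fun i =>
      closed_value hq1 hq2 hqt ht hm hC hZB v f hf i.1 i.2.2 b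
    refine ⟨σ, fun y => decide (P (emb own cst y)),
      univ.filter fun p => Sum.inr p.1.1 ∈ R ∧ ¬ C.Fb H M p.1.1 ∧ p.2 = b, fun y => ?_,
      fun p hp => ?_, fun p hp p' hp' hpp => ?_, ?_⟩
    · have h1 : C.gval H M v f own cst u y = σ ↔
          ∀ i ∈ R, Sum.elim (emb own cst y) (C.wval H M v f own cst y) i = b := by
        rw [← hform]
        unfold gval
        cases σ <;> simp
      rw [h1, decide_eq_true_eq]
      constructor
      · intro h2
        refine ⟨fun i => h2 i.1 i.2.1, fun p hp => ?_⟩
        obtain ⟨h3, h4, h5⟩ := (Finset.mem_filter.mp hp).2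
        rw [h5, ← wval_eq v f own cst p.1 h4 y]
        exact h2 _ h3
      · rintro ⟨h2, h3⟩ i hi
        by_cases hg : good i
        · exact h2 ⟨i, hi, hg⟩
        · have hg' : ∃ g, i = Sum.inr g ∧ g ∈ H ∧ ¬ C.Fb H M g := by
            simp only [good] at hg
            push Not at hg
            exact hg
          obtain ⟨g, rfl, hgH, hgF⟩ := hg'
          have h4 := h3 (⟨g, hgH⟩, b) (Finset.mem_filter.mpr ⟨Finset.mem_univ _, hi, hgF, rfl⟩)
          have h5 := wval_eq (C := C) (M := M) v f own cst ⟨g, hgH⟩ hgF y
          exact h5.trans h4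
    · obtain ⟨h3, h4, -⟩ := (Finset.mem_filter.mp hp).2
      exact ⟨hR _ h3, h4⟩
    · have h1 := (Finset.mem_filter.mp hp).2.2.2
      have h2 := (Finset.mem_filter.mp hp').2.2.2
      exact Prod.ext hpp (h1.trans h2.symm)
    · exact wt_boxInd (fun y => P (emb own cst y)) (boxClosed_emb own cst P hP) _
        (fun y => decide_eq_true_iff) hMu

end Circ

end Pool.Agent.FTR
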