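import Pool.Agent.FTR.Defs

/-!
# Runs of circuits, and circuits in which some gates are replaced by constants
-/

set_option autoImplicit false

namespace Pool.Agent.FTR

open Finset

namespace Gate

variable {m w D : ℕ} {I : Type} [Fintype I]

lemma fires_congr (G : Gate m w D I) {z z' : I → Bool} (h : ∀ i, G.Reads i → z i = z' i) :
    G.Fires z ↔ G.Fires z' := by
  cases G with
  | nor R =>
    show (∀ i ∈ R, z i = false) ↔ ∀ i ∈ R, z' i = false
    exact forall₂_congr fun i hi => by rw [h i hi]
  | and R =>
    show (∀ i ∈ R, z i = true) ↔ ∀ i ∈ R, z' i = true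
    exact forall₂_congr fun i hi => by rw [h i hi]
  | or R =>
    show (∃ i ∈ R, z i = true) ↔ ∃ i ∈ R, z' i = true
    exact exists_congr fun i => and_congr_right fun hi => by rw [h i hi]
  | sym R A =>
    show A _ = true ↔ A _ = true
    have e1 : Nat.card {i // i ∈ R ∧ z i = true} = Nat.card {i // i ∈ R ∧ z' i = true} :=
      Nat.card_congr (Equiv.subtypeEquivRight fun i => and_congr_right fun hi => by rw [h i hi])
    rw [e1]
  | test c A =>
    show A _ = true ↔ A _ = true
    have : (fun l => ∑ T : Finset I, if T.card ≤ D ∧ ∀ i ∈ T, z i = true then c l T else 0) =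
        fun l => ∑ T : Finset I, if T.card ≤ D ∧ ∀ i ∈ T, z' i = true then c l T else 0 := by
      funext l
      refine Finset.sum_congr rfl fun T _ => ?_
      by_cases hc : c l T = 0
      · simp [hc]
      · by_cases hT : T.card ≤ D
        · have h1 : (T.card ≤ D ∧ ∀ i ∈ T, z i = true) ↔ (T.card ≤ D ∧ ∀ i ∈ T, z' i = true) :=
            and_congr_right fun _ => forall₂_congr fun i hi => by rw [h i ⟨l, T, hT, hi, hc⟩]
          by_cases h2 : T.card ≤ D ∧ ∀ i ∈ T, z i = true
          · rw [if_pos h2, if_pos (h1.mp h2)]
          · rw [if_neg h2, if_neg fun h3 => h2 (h1.mpr h3)]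
        · rw [if_neg fun h1 => hT h1.1, if_neg fun h1 => hT h1.1]
    rw [this]

/-- Gates that are neither tests nor symmetric: for one sign `σ`, the output is `σ` if and only if
all inputs in a set `R` have the value `b`. -/
lemma exists_form (G : Gate m w D I) (hG : ¬ G.IsTest) (hG' : ¬ G.IsSym) : ∃ (σ b : Bool) (R : Set I),
    (∀ i ∈ R, G.Reads i) ∧ ∀ z : I → Bool, ((G.Fires z ↔ σ = true) ↔ ∀ i ∈ R, z i = b) := by
  cases G with
  | nor R =>
    refine ⟨true, false, R, fun i hi => hi, fun z => ?_⟩
    show ((∀ i ∈ R, z i = false) ↔ true = true) ↔ _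
    simp
  | and R =>
    refine ⟨true, true, R, fun i hi => hi, fun z => ?_⟩
    show ((∀ i ∈ R, z i = true) ↔ true = true) ↔ _
    simp
  | or R =>
    refine ⟨false, false, R, fun i hi => hi, fun z => ?_⟩
    show ((∃ i ∈ R, z i = true) ↔ false = true) ↔ _
    simp
  | sym R A => exact absurd trivial hG'
  | test c A => exact absurd trivial hG

end Gate

namespace Circ

variable {m w D S : ℕ} {V : Type} [Fintype V]

/-- Every input has a run. -/
lemma exists_run (C : Circ m w D V S) (x : V → Bool) : ∃ val, C.IsRun x val := by
  classical
  have key : ∀ k : ℕ, ∃ val : Fin S → Bool, ∀ g, C.level g < k →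
      (val g = true ↔ (C.gate g).Fires (Sum.elim x val)) := by
    intro k
    induction k with
    | zero => exact ⟨fun _ => false, fun g hg => absurd hg (Nat.not_lt_zero _)⟩
    | succ k ih =>
      obtain ⟨val, hval⟩ := ih
      refine ⟨fun g => if C.level g < k then val g
        else decide ((C.gate g).Fires (Sum.elim x val)), ?_⟩
      intro g hg
      have hc : (C.gate g).Fires (Sum.elim x (fun g => if C.level g < k then val g
          else decide ((C.gate g).Fires (Sum.elim x val)))) ↔
          (C.gate g).Fires (Sum.elim x val) := by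
        refine (C.gate g).fires_congr fun i hi => ?_
        rcases i with v | g'
        · rfl
        · have := C.level_lt g g' hi
          show (if C.level g' < k then _ else _) = val g'
          rw [if_pos (by omega)]
      rw [hc]
      by_cases h : C.level g < k
      · simp only [if_pos h]
        exact hval g h
      · simp only [if_neg h, decide_eq_true_eq]
  obtain ⟨val, hval⟩ := key (∑ g, C.level g + 1)
  refine ⟨val, fun g => hval g ?_⟩
  have : C.level g ≤ ∑ g, C.level g := Finset.single_le_sum (f := C.level)
    (fun i _ => Nat.zero_le _) (mem_univ g)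
  omega

/-- The run is unique. -/
lemma run_unique {C : Circ m w D V S} {x : V → Bool} {val val' : Fin S → Bool}
    (h : C.IsRun x val) (h' : C.IsRun x val') : val = val' := by
  have key : ∀ k : ℕ, ∀ g, C.level g < k → val g = val' g := by
    intro k
    induction k with
    | zero => exact fun g hg => absurd hg (Nat.not_lt_zero _)
    | succ k ih =>
      intro g hg
      have h1 : (C.gate g).Fires (Sum.elim x val) ↔ (C.gate g).Fires (Sum.elim x val') := by
        refine (C.gate g).fires_congr fun i hi => ?_
        rcases i with v | g'
        · rfl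
        · have := C.level_lt g g' hi
          exact ih g' (by omega)
      rw [← h g, ← h' g] at h1
      exact Bool.eq_iff_iff.mpr h1
  funext g
  exact key (C.level g + 1) g (by omega)

/-- The run. -/
noncomputable def run (C : Circ m w D V S) (x : V → Bool) : Fin S → Bool := (C.exists_run x).choose

lemma isRun_run (C : Circ m w D V S) (x : V → Bool) : C.IsRun x (C.run x) :=
  (C.exists_run x).choose_spec

lemma run_eq {C : Circ m w D V S} {x : V → Bool} {val : Fin S → Bool} (h : C.IsRun x val) :
    C.run x = val := run_unique (C.isRun_run x) h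

lemma accepts_iff (C : Circ m w D V S) (x : V → Bool) : C.Accepts x ↔ C.run x C.out = true := by
  constructor
  · rintro ⟨val, h1, h2⟩
    rw [run_eq h1]
    exact h2
  · exact fun h => ⟨_, C.isRun_run x, h⟩

/-- A constant gate. -/
def constGate (m w D : ℕ) (I : Type) (b : Bool) : Gate m w D I :=
  if b = true then Gate.and ∅ else Gate.or ∅

lemma constGate_reads {I : Type} (b : Bool) (i : I) : ¬ (constGate m w D I b).Reads i := by
  cases b <;> exact fun h => h

lemma constGate_fires {I : Type} [Fintype I] (b : Bool) (z : I → Bool) :
    (constGate m w D I b).Fires z ↔ b = true := by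
  cases b
  · show (∃ i ∈ (∅ : Set I), z i = true) ↔ _
    simp
  · show (∀ i ∈ (∅ : Set I), z i = true) ↔ _
    simp

open Classical in
/-- The circuit in which the gates with the property `A` are replaced by the constants `u`. -/
noncomputable def fix (C : Circ m w D V S) (A : Fin S → Prop) (u : Fin S → Bool) :
    Circ m w D V S where
  gate g := if A g then constGate m w D _ (u g) else C.gate g
  level := C.level
  level_lt g g' h := by
    by_cases hA : A g
    · rw [if_pos hA] at h
      exact absurd h (constGate_reads _ _)
    · rw [if_neg hA] at h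
      exact C.level_lt g g' h
  out := C.out

lemma fix_run_pos (C : Circ m w D V S) {A : Fin S → Prop} (u : Fin S → Bool) (x : V → Bool)
    {g : Fin S} (hg : A g) : (C.fix A u).run x g = u g := by
  have h := (C.fix A u).isRun_run x g
  have h2 : (C.fix A u).gate g = constGate m w D _ (u g) := if_pos hg
  rw [h2, constGate_fires] at h
  exact Bool.eq_iff_iff.mpr h

lemma fix_run_neg (C : Circ m w D V S) {A : Fin S → Prop} (u : Fin S → Bool) (x : V → Bool)
    {g : Fin S} (hg : ¬ A g) : (C.fix A u).run x g = true ↔
      (C.gate g).Fires (Sum.elim x ((C.fix A u).run x)) := by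
  have h := (C.fix A u).isRun_run x g
  have h2 : (C.fix A u).gate g = C.gate g := if_neg hg
  rwa [h2] at h

/-- Recognising the run of a circuit with constants. -/
lemma fix_run_eq (C : Circ m w D V S) {A : Fin S → Prop} {u : Fin S → Bool} {x : V → Bool}
    {val : Fin S → Bool} (h1 : ∀ g, A g → val g = u g)
    (h2 : ∀ g, ¬ A g → (val g = true ↔ (C.gate g).Fires (Sum.elim x val))) :
    (C.fix A u).run x = val := by
  refine run_eq fun g => ?_
  by_cases hA : A g
  · have h3 : (C.fix A u).gate g = constGate m w D _ (u g) := if_pos hA
    rw [h3, constGate_fires, h1 g hA]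
  · have h3 : (C.fix A u).gate g = C.gate g := if_neg hA
    rw [h3]
    exact h2 g hA

end Circ

end Pool.Agent.FTR
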