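import Pool.Agent.FTR.St
import Pool.Agent.FTR.Runs
import Pool.Agent.ALM2.Leaf

/-!
# The upper part of a circuit when the lower gates have shallow decision trees
-/

set_option autoImplicit false
set_option linter.unusedSectionVars false

namespace Pool.Agent.FTR

open Finset Pool.Agent.KCL Pool.Agent.SW Pool.Agent.Helper32.QS Pool.Agent.ALM2

/-- Arbitrary functions of few polynomials in functions with shallow decision trees. -/
lemma closed_poly {V I : Type} [Fintype V] [DecidableEq V] [Fintype I] {m w D q t : ℕ}
    (hm : m ≠ 0) (U : I → (V → Bool) → Bool) (hU : ∀ i, DTle t (U i))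
    (c : Fin w → Finset I → ZMod m) (A : (Fin w → ZMod m) → Bool)
    (hq : ZB (w * (m * (D * t))) (D * t) m.primeFactorsList.length ≤ q) (b : Bool) :
    CubeClosed q fun x => A (fun l => polyEval D (c l) fun i => U i x) = b := by
  have h := closed_local hm U (fun u => ldr_dt (hU u))
    (fun z => decide (A (fun l => polyEval D (c l) z) = b)) ⟨c, fun v => decide (A v = b),
      fun x => rfl⟩ hq
  refine CubeClosed.congr h fun x => ?_
  exact decide_eq_true_iff.symm

namespace Circ

variable {m w D S N d s k r : ℕ} {V : Type} [Fintype V]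

/-- The gates whose values are guessed: the marked gates and the output gate, as far as they are in
`H` or tests. -/
def Fb (C : Circ m w D V S) (H M : Finset (Fin S)) (g : Fin S) : Prop :=
  (g ∈ H ∨ (C.gate g).IsTest) ∧ (g ∈ M ∨ g = C.out)

/-- The gates outside of `H` that are not tests. -/
def Low (C : Circ m w D V S) (H : Finset (Fin S)) (g : Fin S) : Prop :=
  g ∉ H ∧ ¬ (C.gate g).IsTest

open Classical in
/-- The constants for the guessed gates and the lower gates. -/
noncomputable def cst (C : Circ m w D V S) (H M : Finset (Fin S)) (v u : Fin S → Bool) :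
    Fin S → Bool := fun g => if C.Fb H M g then v g else u g

/-- The run when the values of the guessed gates and of the lower gates are given. -/
noncomputable def top (C : Circ m w D V S) (H M : Finset (Fin S)) (v : Fin S → Bool)
    (x : V → Bool) (u : Fin S → Bool) : Fin S → Bool :=
  (C.fix (fun g => C.Fb H M g ∨ C.Low H g) (C.cst H M v u)).run x

/-- The values `v` of the guessed gates are correct, and the circuit accepts. -/
def Phi (C : Circ m w D V S) (H M : Finset (Fin S)) (v : Fin S → Bool) (x : V → Bool)
    (u : Fin S → Bool) : Prop :=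
  (∀ g, C.Fb H M g → ((C.gate g).Fires (Sum.elim x (C.top H M v x u)) ↔ v g = true)) ∧
    C.top H M v x u C.out = true

variable {C : Circ m w D V S} {H M : Finset (Fin S)}

lemma low_not_fb {g : Fin S} (h : C.Low H g) : ¬ C.Fb H M g := fun h2 => h2.1.elim h.1 h.2

lemma top_fb (v : Fin S → Bool) (x : V → Bool) (u : Fin S → Bool) {g : Fin S}
    (hg : C.Fb H M g) : C.top H M v x u g = v g := by
  unfold top
  rw [fix_run_pos C _ x (Or.inl hg)]
  exact if_pos hg

lemma top_low (v : Fin S → Bool) (x : V → Bool) (u : Fin S → Bool) {g : Fin S}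
    (hg : C.Low H g) : C.top H M v x u g = u g := by
  unfold top
  rw [fix_run_pos C _ x (Or.inr hg)]
  exact if_neg (low_not_fb hg)

lemma top_other (v : Fin S → Bool) (x : V → Bool) (u : Fin S → Bool) {g : Fin S}
    (h1 : ¬ C.Fb H M g) (h2 : ¬ C.Low H g) : C.top H M v x u g = true ↔
      (C.gate g).Fires (Sum.elim x (C.top H M v x u)) := by
  unfold top
  exact fix_run_neg C _ x (fun h => h.elim h1 h2)

variable [DecidableEq V]

open Classical in
/-- The value of an input as a function of the variables, when it is a variable, a guessed gate or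
a lower gate. -/
noncomputable def inp (C : Circ m w D V S) (H M : Finset (Fin S)) (v : Fin S → Bool)
    (f : Fin S → (V → Bool) → Bool) : V ⊕ Fin S → (V → Bool) → Bool :=
  Sum.elim (fun j x => x j) fun g' =>
    if C.Fb H M g' then fun _ => v g' else if C.Low H g' then f g' else fun _ => false

lemma dt_inp {t : ℕ} (ht : 1 ≤ t) (v : Fin S → Bool) (f : Fin S → (V → Bool) → Bool)
    (hf : ∀ g, C.Low H g → DTle t (f g)) (i : V ⊕ Fin S) : DTle t (C.inp H M v f i) := by
  classical
  rcases i with j | g'
  · refine DTle.mono ht (Or.inr ⟨j, fun b => ⟨b, fun x => ?_⟩⟩)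
    show Function.update x j b j = b
    rw [Function.update_self]
  · show DTle t (if C.Fb H M g' then fun _ => v g' else if C.Low H g' then f g'
        else fun _ => false)
    by_cases h1 : C.Fb H M g'
    · rw [if_pos h1]
      exact DTle.of_const ⟨_, fun _ => rfl⟩
    · rw [if_neg h1]
      by_cases h2 : C.Low H g'
      · rw [if_pos h2]
        exact hf g' h2
      · rw [if_neg h2]
        exact DTle.of_const ⟨_, fun _ => rfl⟩

/-- The inputs of the gates outside of `H` and of the symmetric gates. -/
lemma inp_eq (hC : C.Bounded H M N d s k r) (v : Fin S → Bool) (f : Fin S → (V → Bool) → Bool)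
    {g : Fin S} (hg : g ∉ H ∨ (C.gate g).IsSym) (x : V → Bool) (i : V ⊕ Fin S)
    (hi : (C.gate g).Reads i) :
    Sum.elim x (C.top H M v x fun g => f g x) i = C.inp H M v f i x := by
  classical
  rcases i with j | g'
  · rfl
  · show C.top H M v x (fun g => f g x) g' = (if C.Fb H M g' then fun _ => v g' else
        if C.Low H g' then f g' else fun _ => false) x
    by_cases h1 : C.Fb H M g'
    · rw [if_pos h1, top_fb v x _ h1]
    · rw [if_neg h1]
      have h2 : C.Low H g' :=
        ⟨fun h => h1 ⟨Or.inl h, Or.inl (hC.marked g' g (Or.inl h) hi hg)⟩,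
          fun h => h1 ⟨Or.inr h, Or.inl (hC.marked g' g (Or.inr h) hi hg)⟩⟩
      rw [if_pos h2, top_low v x _ h2]

/-- The value that a test takes is a closed condition. -/
lemma closed_fires {q t : ℕ} (ht : 1 ≤ t) (hm : m ≠ 0) (hC : C.Bounded H M N d s k r)
    (hZB : ZB (w * (m * (D * t))) (D * t) m.primeFactorsList.length ≤ q)
    (v : Fin S → Bool) (f : Fin S → (V → Bool) → Bool) (hf : ∀ g, C.Low H g → DTle t (f g))
    (g : Fin S) (htest : (C.gate g).IsTest) (b : Bool) :
    CubeClosed q fun x => (C.gate g).Fires (Sum.elim x (C.top H M v x fun g => f g x)) ↔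
      b = true := by
  classical
  have hgH : g ∉ H := fun h => hC.no_test g h htest
  have hUx := inp_eq hC v f (g := g) (Or.inl hgH)
  cases hgate : C.gate g with
  | nor R => rw [hgate] at htest; exact absurd htest id
  | and R => rw [hgate] at htest; exact absurd htest id
  | or R => rw [hgate] at htest; exact absurd htest id
  | sym R A => rw [hgate] at htest; exact absurd htest id
  | test c A =>
    refine CubeClosed.congr (closed_poly hm (C.inp H M v f) (dt_inp ht v f hf) c A hZB b)
      fun x => ?_
    have h1 : (Gate.test (D := D) c A).Fires (Sum.elim x (C.top H M v x fun g => f g x)) ↔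
        A (fun l => polyEval D (c l) fun i => C.inp H M v f i x) = true := by
      rw [← hgate, Gate.fires_congr _ (hUx x), hgate]
      rfl
    rw [h1]
    exact Bool.eq_iff_iff.symm

/-- The values of all inputs that are not themselves in `H`, or are guessed gates, are closed
conditions. -/
lemma closed_value {q t : ℕ} (hq1 : 1 ≤ q) (hq2 : 2 ≤ q) (hqt : t < q) (ht : 1 ≤ t) (hm : m ≠ 0)
    (hC : C.Bounded H M N d s k r)
    (hZB : ZB (w * (m * (D * t))) (D * t) m.primeFactorsList.length ≤ q)
    (v : Fin S → Bool) (f : Fin S → (V → Bool) → Bool) (hf : ∀ g, C.Low H g → DTle t (f g))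
    (i : V ⊕ Fin S) (hi : ∀ g, i = Sum.inr g → g ∈ H → C.Fb H M g) (b : Bool) :
    CubeClosed q fun x => Sum.elim x (C.top H M v x fun g => f g x) i = b := by
  classical
  rcases i with j | g
  · exact CubeClosed.coord hq2 j b
  · show CubeClosed q fun x => C.top H M v x (fun g => f g x) g = b
    by_cases hfb : C.Fb H M g
    · refine CubeClosed.congr (closed_const hq1 (v g = b)) fun x => ?_
      rw [top_fb v x _ hfb]
    · have hgH : g ∉ H := fun h => hfb (hi g rfl h)
      by_cases hlow : C.Low H g
      · refine CubeClosed.congr (closed_dt hqt (hf g hlow) b) fun x => ?_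
        rw [top_low v x _ hlow]
      · have htest : (C.gate g).IsTest := by
          by_contra h
          exact hlow ⟨hgH, h⟩
        refine CubeClosed.congr (closed_fires ht hm hC hZB v f hf g htest b) fun x => ?_
        rw [← top_other v x _ hfb hlow]
        exact Bool.eq_iff_iff

end Circ

end Pool.Agent.FTR
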