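import Pool.Agent.FTR.Fin
import Pool.Agent.FRM.ApxM
import Pool.Agent.KCL.Numbers

/-!
# The main theorem
-/

set_option autoImplicit false

namespace Pool.Agent.FTR

open Finset Pool.Agent.KCL Pool.Agent.SW Pool.Agent.Helper32.QS Pool.Agent.ALM

lemma Main_apxC : ∃ C : ℕ, ApxC C := by
  obtain ⟨C, -, hC⟩ := FRM.all_ApxM
  exact ⟨C, fun X V S Mu z hMu hz F L => hC X V S z Mu hMu hz F L⟩

lemma Main_bounded_mono {m w D S N d s k r d' : ℕ} {V : Type} [Fintype V] {C : Circ m w D V S}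
    {H M : Finset (Fin S)} (hC : C.Bounded H M N d s k r) (hd : d ≤ d') :
    C.Bounded H M N d' s k r := by
  refine ⟨hC.no_test, hC.sym_mem, hC.card_upper, hC.card_marked, hC.marked, hC.path_reused,
    hC.card_lower, ?_⟩
  obtain ⟨lev, hlev⟩ := hC.path_lower
  exact ⟨lev, fun g hg hg' => ⟨lt_of_lt_of_le (hlev g hg hg').1 hd, (hlev g hg hg').2⟩⟩

/-- one step of the recursion -/
lemma Main_need {C₀ s e : ℕ} {X Λ s' : ℝ} (hX : 0 ≤ X) (hΛ : 1 + C₀ * X ≤ Λ)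
    (hs : (s : ℝ) ≤ s') :
    ((need C₀ s X e : ℕ) : ℝ) + 1 ≤ 3 * Λ ^ 2 * (Real.sqrt (s' * (e + 1)) + (e + 1)) := by
  have he : (0 : ℝ) ≤ e := Nat.cast_nonneg _
  have hC : (0 : ℝ) ≤ C₀ := Nat.cast_nonneg _
  have hCX : 0 ≤ C₀ * X := mul_nonneg hC hX
  have hs0 : (0 : ℝ) ≤ s := Nat.cast_nonneg _
  have h1 : Real.sqrt (s * ((e : ℝ) + 1)) ≤ Real.sqrt (s' * (e + 1)) :=
    Real.sqrt_le_sqrt (mul_le_mul_of_nonneg_right hs (by linarith))
  have h0 : 0 ≤ Real.sqrt (s * ((e : ℝ) + 1)) := Real.sqrt_nonneg _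
  have h2 : 0 ≤ 2 * (C₀ : ℝ) * (Real.sqrt (s * ((e : ℝ) + 1)) + (e + 1) + 1) * X := by positivity
  have h3 := Nat.ceil_lt_add_one h2
  unfold need
  push_cast
  have h4 : 2 * (C₀ : ℝ) * (Real.sqrt (s * ((e : ℝ) + 1)) + (e + 1) + 1) * X ≤
      2 * (C₀ * X) * (Real.sqrt (s' * (e + 1)) + 2 * (e + 1)) := by
    have e1 : 2 * (C₀ : ℝ) * (Real.sqrt (s * ((e : ℝ) + 1)) + (e + 1) + 1) * X =
        2 * (C₀ * X) * (Real.sqrt (s * ((e : ℝ) + 1)) + (e + 1) + 1) := by ring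
    rw [e1]
    refine mul_le_mul_of_nonneg_left ?_ (by linarith)
    linarith
  have h5 : 1 + 2 * (C₀ * X) ≤ Λ ^ 2 := by nlinarith
  set R := Real.sqrt (s' * (e + 1)) with hR
  have hR0 : 0 ≤ R := h0.trans h1
  have h6 : (e : ℝ) + 3 + 2 * (C₀ * X) * (R + 2 * (e + 1)) ≤ 3 * Λ ^ 2 * (R + (e + 1)) := by
    have e2 : 3 * (1 + 2 * (C₀ * X)) * (R + (e + 1)) ≤ 3 * Λ ^ 2 * (R + (e + 1)) :=
      mul_le_mul_of_nonneg_right (by linarith) (by linarith)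
    refine le_trans ?_ e2
    nlinarith [mul_nonneg hCX hR0, mul_nonneg hCX he]
  linarith

/-- the logarithm of the weights -/
lemma Main_log (a b s c q : ℕ) : Real.log ((s : ℝ) + ((a * b + b ^ c + 1 : ℕ) : ℝ) ^ q + 2) ≤
    ((c + 4) * q + 2 : ℕ) * Real.log (s + a + b + 2) := by
  set Z : ℕ := s + a + b + 2 with hZ
  have hZ2 : 2 ≤ Z := by omega
  have h1 : a * b + b ^ c + 1 ≤ Z ^ (c + 4) := by
    have e1 : a * b ≤ Z ^ (c + 2) := by
      calc a * b ≤ Z * Z := Nat.mul_le_mul (by omega) (by omega)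
        _ = Z ^ 2 := (sq Z).symm
        _ ≤ Z ^ (c + 2) := Nat.pow_le_pow_right (by omega) (by omega)
    have e2 : b ^ c ≤ Z ^ (c + 2) :=
      (Nat.pow_le_pow_left (by omega : b ≤ Z) c).trans (Nat.pow_le_pow_right (by omega) (by omega))
    have e3 : 1 ≤ Z ^ (c + 2) := Nat.one_le_pow _ _ (by omega)
    have e4 : Z ^ (c + 4) = Z ^ (c + 2) * Z ^ 2 := by rw [← pow_add]
    have e5 : 4 ≤ Z ^ 2 := by nlinarith
    nlinarith
  have h2 : s + (a * b + b ^ c + 1) ^ q + 2 ≤ Z ^ ((c + 4) * q + 2) := by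
    have e1 : (a * b + b ^ c + 1) ^ q ≤ Z ^ ((c + 4) * q) := by
      rw [pow_mul]
      exact Nat.pow_le_pow_left h1 q
    have e2 : 1 ≤ Z ^ ((c + 4) * q) := Nat.one_le_pow _ _ (by omega)
    have e3 : Z ^ ((c + 4) * q + 2) = Z ^ ((c + 4) * q) * Z ^ 2 := pow_add _ _ _
    have e4 : s + 2 ≤ Z := by omega
    have e5 : Z + 1 ≤ Z ^ 2 := by nlinarith
    calc s + (a * b + b ^ c + 1) ^ q + 2 ≤ Z ^ ((c + 4) * q) + Z := by omega
      _ ≤ Z ^ ((c + 4) * q) * 1 + Z ^ ((c + 4) * q) * Z := by nlinarith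
      _ = Z ^ ((c + 4) * q) * (Z + 1) := by ring
      _ ≤ Z ^ ((c + 4) * q) * Z ^ 2 := Nat.mul_le_mul_left _ e5
      _ = _ := e3.symm
  have h3 : (s : ℝ) + ((a * b + b ^ c + 1 : ℕ) : ℝ) ^ q + 2 ≤ (Z : ℝ) ^ ((c + 4) * q + 2) := by
    exact_mod_cast h2
  have h4 : (0 : ℝ) < (s : ℝ) + ((a * b + b ^ c + 1 : ℕ) : ℝ) ^ q + 2 := by positivity
  have h5 : ((s : ℝ) + a + b + 2) = (Z : ℝ) := by
    rw [hZ]
    push_cast
    ring
  rw [h5]
  calc Real.log ((s : ℝ) + ((a * b + b ^ c + 1 : ℕ) : ℝ) ^ q + 2)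
      ≤ Real.log ((Z : ℝ) ^ ((c + 4) * q + 2)) := Real.log_le_log h4 h3
    _ = ((c + 4) * q + 2 : ℕ) * Real.log Z := Real.log_pow _ _

/-- the tail -/
lemma Main_tail {a b q n L : ℕ} (hn : n = ⌊(a : ℝ) / (2 ^ (q + 4) * (b + 1))⌋₊)
    (hL : L + 2 ≤ n) :
    2 ^ n * Real.exp (-(a / (2 ^ (q + 3) * (b + 1)))) ≤ (1 / 2 : ℝ) ^ (L + 2) := by
  have hb : (0 : ℝ) < (b : ℝ) + 1 := by positivity
  have h1 : (n : ℝ) ≤ (a : ℝ) / (2 ^ (q + 4) * (b + 1)) := by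
    rw [hn]
    exact Nat.floor_le (by positivity)
  have h2 : (2 : ℝ) * n ≤ (a : ℝ) / (2 ^ (q + 3) * (b + 1)) := by
    have e1 : (a : ℝ) / (2 ^ (q + 3) * (b + 1)) = 2 * ((a : ℝ) / (2 ^ (q + 4) * (b + 1))) := by
      rw [show (2 : ℝ) ^ (q + 4) = 2 ^ (q + 3) * 2 by rw [← pow_succ]]
      field_simp
    rw [e1]
    linarith
  have h3 : Real.exp (-((a : ℝ) / (2 ^ (q + 3) * (b + 1)))) ≤ (1 / 4) ^ n := by
    calc Real.exp (-((a : ℝ) / (2 ^ (q + 3) * (b + 1)))) ≤ Real.exp (-(2 * n)) :=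
          Real.exp_le_exp.mpr (by linarith)
      _ = Real.exp (-2) ^ n := by
          rw [← Real.exp_nat_mul]
          congr 1
          ring
      _ ≤ (1 / 4) ^ n := by
          refine pow_le_pow_left₀ (Real.exp_pos _).le ?_ n
          have e1 : Real.exp (-2) = Real.exp (-1) * Real.exp (-1) := by
            rw [← Real.exp_add]
            norm_num
          have e2 : Real.exp (-1) ≤ 1 / 2 := by
            rw [Real.exp_neg, ← one_div]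
            refine one_div_le_one_div_of_le (by norm_num) ?_
            have := Real.add_one_le_exp (1 : ℝ)
            linarith
          rw [e1]
          have e3 : 0 < Real.exp (-1) := Real.exp_pos _
          nlinarith
  calc (2 : ℝ) ^ n * Real.exp (-(a / (2 ^ (q + 3) * (b + 1)))) ≤ 2 ^ n * (1 / 4) ^ n :=
        mul_le_mul_of_nonneg_left h3 (by positivity)
    _ = (1 / 2) ^ n := by
        rw [← mul_pow]
        norm_num
    _ ≤ (1 / 2) ^ (L + 2) := pow_le_pow_of_le_one (by norm_num) (by norm_num) hL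

/-- the probability of a bad restriction -/
lemma Main_small {A d k L τ : ℕ} (hA2 : 2 ^ (d + 1) ≤ A) (hA3 : d ≤ A) (hA1 : 1 ≤ A)
    (hτ : k + 1 + (L + 2) = τ) :
    (2 : ℝ) ^ (k + 1) * (d * (2 ^ (d * τ) * (1 / (A : ℝ) ^ 2 * A) ^ (τ + 1))) ≤
      (1 / 2) ^ (L + 2) := by
  have hApos : (0 : ℝ) < A := by
    have : (1 : ℝ) ≤ A := by exact_mod_cast hA1
    linarith
  have e1 : (1 / (A : ℝ) ^ 2 * A) = 1 / A := by field_simp
  have hA2' : (2 : ℝ) ^ (d + 1) ≤ A := by exact_mod_cast hA2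
  have hA3' : (d : ℝ) ≤ A := by exact_mod_cast hA3
  have e3 : (2 : ℝ) ^ (d * τ) * (1 / A) ^ (τ + 1) ≤ (1 / 2) ^ τ * (1 / A) := by
    rw [pow_succ, ← mul_assoc]
    refine mul_le_mul_of_nonneg_right ?_ (by positivity)
    rw [pow_mul, ← mul_pow]
    refine pow_le_pow_left₀ (by positivity) ?_ τ
    rw [mul_one_div, div_le_iff₀ hApos]
    rw [pow_succ] at hA2'
    linarith
  rw [e1]
  calc (2 : ℝ) ^ (k + 1) * (d * (2 ^ (d * τ) * (1 / (A : ℝ)) ^ (τ + 1)))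
      ≤ 2 ^ (k + 1) * (A * ((1 / 2) ^ τ * (1 / A))) := by
        refine mul_le_mul_of_nonneg_left ?_ (by positivity)
        exact mul_le_mul hA3' e3 (by positivity) (by positivity)
    _ = (2 * (1 / 2)) ^ (k + 1) * (1 / 2) ^ (L + 2) := by
        rw [← hτ, pow_add (1 / 2 : ℝ) (k + 1), mul_pow]
        field_simp
    _ = (1 / 2) ^ (L + 2) := by norm_num

/-- **The main theorem.** -/
theorem Main_thm (hSym : St_Sym) (hRec : St_Rec) (hNum : St_Num) (m w D c d r : ℕ) (hm : 2 ≤ m) :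
    ∃ K : ℕ, ∀ a b s k L S : ℕ, K ≤ b →
    ∀ (C : Circ m w D (Fin a × Fin b) S) (H M : Finset (Fin S)),
      C.Bounded H M (b ^ c) d s k r →
      (1 + (1 / 2 : ℝ) ^ L) / 2 * 2 ^ (a * b) ≤
        Nat.card {x : Fin a × Fin b → Bool // C.Accepts x ↔ OddMaj x} →
      ((a : ℝ) / b) ^ 2 ^ (r + 1) ≤
        (K * Real.log (s + a + b + 2)) ^ K * (s + k + L + 1) ^ (2 ^ (r + 1) - 1) *
          (k + L + 1) := by
  classical
  obtain ⟨C₀, hApx⟩ := Main_apxC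
  obtain ⟨K₁, hK₁⟩ := hNum (r + 1)
  obtain ⟨u, hu⟩ : ∃ z, z = m.primeFactorsList.length := ⟨_, rfl⟩
  obtain ⟨d', hd'⟩ : ∃ z, z = d + 1 := ⟨_, rfl⟩
  obtain ⟨t, ht⟩ : ∃ z, z = 16 * d' * (c + 1) := ⟨_, rfl⟩
  obtain ⟨q, hq⟩ : ∃ z, z = ZB (w * (m * (D * t))) (D * t) u + t + 2 := ⟨_, rfl⟩
  obtain ⟨c₀, hc₀⟩ : ∃ z, z = Nat.clog 2 (q + 1) := ⟨_, rfl⟩
  obtain ⟨B, hB⟩ : ∃ z, z = 32 * t + 2 ^ (d' + 1) + 8 * (q + 1) := ⟨_, rfl⟩
  obtain ⟨c₃, hc₃⟩ : ∃ z, z = 3 * d' + 6 := ⟨_, rfl⟩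
  obtain ⟨c₅, hc₅⟩ : ∃ z, z = 2 * c₃ + C₀ * ((c + 4) * q + 2) := ⟨_, rfl⟩
  obtain ⟨c₆, hc₆⟩ : ∃ z, z = (2 ^ (q + 5) * 8 ^ q * (c₀ + 1)) ^ 2 ^ (r + 1) := ⟨_, rfl⟩
  obtain ⟨K, hK⟩ : ∃ z, z = c₆ + c₃ + K₁ + 6 * c₅ + (B + 1) ^ (8 * d') + 4 := ⟨_, rfl⟩
  refine ⟨K, ?_⟩
  intro a b s k L S hKb C H M hC hX
  have hd1 : 1 ≤ d' := by omega
  have ht1 : 1 ≤ t := by
    rw [ht]
    exact Nat.mul_pos (by omega) (by omega)
  -- the logarithm
  obtain ⟨Lg, hLg⟩ : ∃ z : ℝ, z = Real.log ((s : ℝ) + a + b + 2) := ⟨_, rfl⟩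
  have hs0 : (0 : ℝ) ≤ s := Nat.cast_nonneg _
  have ha0 : (0 : ℝ) ≤ a := Nat.cast_nonneg _
  have hb0 : (0 : ℝ) ≤ b := Nat.cast_nonneg _
  have hk0 : (0 : ℝ) ≤ k := Nat.cast_nonneg _
  have hL0 : (0 : ℝ) ≤ L := Nat.cast_nonneg _
  have hLg2 : Real.log 2 ≤ Lg := by
    rw [hLg]
    exact Real.log_le_log (by norm_num) (by linarith)
  have hlog2 := Real.log_two_gt_d9
  have hLgpos : 0 ≤ Lg := by linarith
  have hKL2 : (2 : ℝ) ≤ K * Lg := by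
    have h1 : (4 : ℝ) ≤ K := by
      have : 4 ≤ K := by omega
      exact_mod_cast this
    nlinarith
  have hKL1 : (1 : ℝ) ≤ K * Lg := by linarith
  have hpow : ∀ j : ℕ, (j : ℝ) ≤ (K * Lg) ^ j := by
    intro j
    calc (j : ℝ) ≤ 2 ^ j := by exact_mod_cast Nat.lt_two_pow_self.le
      _ ≤ (K * Lg) ^ j := pow_le_pow_left₀ (by norm_num) hKL2 j
  obtain ⟨s', hs'⟩ : ∃ z : ℝ, z = s + k + L + 1 := ⟨_, rfl⟩
  have hs'1 : 1 ≤ s' := by
    rw [hs']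
    linarith
  rw [← hs', ← hLg]
  -- the root of `b`
  obtain ⟨A, hA1, hA2⟩ := exists_root (8 * d') b (by omega)
  have hAB : B ≤ A := by
    by_contra hcon
    push Not at hcon
    have h1 : (A + 1) ^ (8 * d') ≤ (B + 1) ^ (8 * d') := Nat.pow_le_pow_left (by omega) _
    omega
  have hA32 : 32 * t ≤ A := by
    refine le_trans ?_ hAB
    rw [hB, Nat.add_assoc]
    exact Nat.le_add_right _ _
  have hAd : 2 ^ (d' + 1) ≤ A := by
    refine le_trans ?_ hAB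
    rw [hB]
    exact le_trans (Nat.le_add_left _ _) (Nat.le_add_right _ _)
  have hA8 : 8 * (q + 1) ≤ A := by
    refine le_trans ?_ hAB
    rw [hB]
    exact Nat.le_add_left _ _
  have hA0 : 1 ≤ A := by omega
  have hAr : (1 : ℝ) ≤ A := by exact_mod_cast hA0
  have hb1 : 1 ≤ b := by
    have : 1 ≤ K := by omega
    omega
  -- the numbers of the proof
  obtain ⟨τ, hτ⟩ : ∃ z, z = k + 1 + (L + 2) := ⟨_, rfl⟩
  obtain ⟨E, hE⟩ : ∃ z, z = L + 5 + k + d' * τ := ⟨_, rfl⟩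
  obtain ⟨Mu, hMu⟩ : ∃ z : ℝ, z = ((a * b + b ^ c + 1 : ℕ) : ℝ) ^ q := ⟨_, rfl⟩
  obtain ⟨X, hX'⟩ : ∃ z : ℝ, z = Real.log (s + Mu + 2) := ⟨_, rfl⟩
  obtain ⟨n, hn⟩ : ∃ z, z = ⌊(a : ℝ) / (2 ^ (q + 4) * (b + 1))⌋₊ := ⟨_, rfl⟩
  have hMu1 : 1 ≤ Mu := by
    rw [hMu]
    refine one_le_pow₀ ?_
    have : 1 ≤ a * b + b ^ c + 1 := by omega
    exact_mod_cast this
  have hX0 : 0 ≤ X := by
    rw [hX']
    exact Real.log_nonneg (by linarith)
  have hXle : X ≤ ((c + 4) * q + 2 : ℕ) * Lg := by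
    rw [hX', hMu, hLg]
    exact Main_log a b s c q
  have hE1 : E + 1 ≤ c₃ * (k + L + 1) := by
    have e1 : d' * τ ≤ d' * (3 * (k + L + 1)) := Nat.mul_le_mul_left _ (by omega)
    have e2 : c₃ * (k + L + 1) = d' * (3 * (k + L + 1)) + 6 * (k + L + 1) := by
      rw [hc₃]
      ring
    omega
  have hneed : ∀ j E', E' ≤ (need C₀ s X)^[j] E' := by
    intro j
    induction j with
    | zero => exact fun E' => le_rfl
    | succ j ih =>
      intro E'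
      rw [Function.iterate_succ_apply]
      refine le_trans ?_ (ih _)
      unfold need
      omega
  -- the combinatorial bound
  have hmain : n < 8 ^ q * ((need C₀ s X)^[r + 1] E + c₀) := by
    by_contra hcon
    push Not at hcon
    have hbA : b ≤ A ^ (16 * d') := by
      have e4 : (A + 1) ^ (8 * d') ≤ A ^ (16 * d') := by
        calc (A + 1) ^ (8 * d') ≤ (A ^ 2) ^ (8 * d') := by
              refine Nat.pow_le_pow_left ?_ _
              nlinarith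
          _ = A ^ (16 * d') := by
              rw [← pow_mul]
              congr 1
              ring
      omega
    have hbc : b ^ c ≤ A ^ (16 * d' * c) := by
      calc b ^ c ≤ (A ^ (16 * d')) ^ c := Nat.pow_le_pow_left hbA c
        _ = A ^ (16 * d' * c) := by rw [← pow_mul]
    have hNA : ((b ^ c : ℕ) : ℝ) ≤ (A : ℝ) ^ (t + 1) := by
      have h1 : b ^ c ≤ A ^ (t + 1) := by
        refine hbc.trans (Nat.pow_le_pow_right (by omega) ?_)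
        have : 16 * d' * c ≤ t := by
          rw [ht]
          exact Nat.mul_le_mul_left _ (by omega)
        omega
      exact_mod_cast h1
    have hqb : 8 * ((q : ℝ) + 1) ≤ (1 / (32 * t * (A : ℝ) ^ 2)) ^ d' * b := by
      have e1 : (8 * (q + 1) : ℝ) ≤ A := by exact_mod_cast hA8
      have e2 : ((A : ℝ) ^ (8 * d')) ≤ b := by exact_mod_cast hA1
      have e3 : (32 : ℝ) * t ≤ A := by exact_mod_cast hA32
      have hApos : (0 : ℝ) < A := by linarith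
      have ht' : (1 : ℝ) ≤ t := by exact_mod_cast ht1
      have e4 : (1 / (A : ℝ) ^ 3) ^ d' ≤ (1 / (32 * t * (A : ℝ) ^ 2)) ^ d' := by
        refine pow_le_pow_left₀ (by positivity) ?_ _
        refine one_div_le_one_div_of_le (by positivity) ?_
        calc 32 * (t : ℝ) * (A : ℝ) ^ 2 ≤ A * (A : ℝ) ^ 2 :=
              mul_le_mul_of_nonneg_right e3 (by positivity)
          _ = (A : ℝ) ^ 3 := by ring
      calc 8 * ((q : ℝ) + 1) ≤ A := e1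
        _ = (A : ℝ) ^ 1 := (pow_one _).symm
        _ ≤ (A : ℝ) ^ (5 * d') := pow_le_pow_right₀ hAr (by omega)
        _ = (1 / (A : ℝ) ^ 3) ^ d' * (A : ℝ) ^ (8 * d') := by
            rw [one_div, inv_pow, ← pow_mul, show 8 * d' = 5 * d' + 3 * d' by ring, pow_add]
            field_simp
        _ ≤ (1 / (32 * t * (A : ℝ) ^ 2)) ^ d' * b :=
            mul_le_mul e4 e2 (by positivity) (by positivity)
    have hnL : L + 2 ≤ n := by
      have e1 := hneed (r + 1) E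
      have e2 : (need C₀ s X)^[r + 1] E + c₀ ≤ 8 ^ q * ((need C₀ s X)^[r + 1] E + c₀) :=
        Nat.le_mul_of_pos_left _ (by positivity)
      omega
    have hdA : d' ≤ A := by
      have : d' < 2 ^ d' := Nat.lt_two_pow_self
      have h2 : 2 ^ (d' + 1) = 2 * 2 ^ d' := by rw [pow_succ]; ring
      omega
    rw [hX'] at hcon
    exact Circ.core_avg (τ := τ) (L := L) (E := E) (n := n) (t := t) (q := q) (r := r) hSym hRec
      hApx (by omega : m ≠ 0) hd1 C H M (Main_bounded_mono hC (by omega : d ≤ d')) hX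
      (mpar_of hA0 ht1) hNA (by omega : 2 ≤ q) (by omega : t < q)
      (by rw [← hu]; omega) hqb (Main_small hAd hdA hA0 hτ.symm) hE.ge hMu
      (Main_tail hn hnL) (by rw [← hc₀]; exact hcon)
  -- the final bound
  obtain ⟨Λ, hΛ⟩ : ∃ z : ℝ, z = c₃ + C₀ * X := ⟨_, rfl⟩
  have hc₃r : (1 : ℝ) ≤ c₃ := by
    have : 1 ≤ c₃ := by omega
    exact_mod_cast this
  have hC₀r : (0 : ℝ) ≤ C₀ := Nat.cast_nonneg _
  have hCX : 0 ≤ C₀ * X := mul_nonneg hC₀r hX0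
  have hΛ1 : 1 ≤ Λ := by
    rw [hΛ]
    linarith
  have hΛle : Λ ≤ c₅ * Lg := by
    have e1 : (c₃ : ℝ) ≤ 2 * c₃ * Lg := by nlinarith
    have e2 : (C₀ : ℝ) * X ≤ C₀ * (((c + 4) * q + 2 : ℕ) * Lg) :=
      mul_le_mul_of_nonneg_left hXle hC₀r
    have e3 : (c₅ : ℝ) = 2 * c₃ + C₀ * ((c + 4) * q + 2 : ℕ) := by
      rw [hc₅]
      push_cast
      ring
    rw [hΛ, e3]
    linarith
  have hE1r : (E : ℝ) + 1 ≤ c₃ * ((k : ℝ) + L + 1) := by exact_mod_cast hE1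
  have hE2r : (E : ℝ) + 1 ≤ Λ * s' := by
    refine hE1r.trans (mul_le_mul ?_ ?_ (by positivity) (by linarith))
    · rw [hΛ]
      linarith
    · rw [hs']
      linarith
  obtain ⟨-, hit⟩ := hK₁ (need C₀ s X) E Λ s' hΛ1 hs'1
    (fun e => Main_need hX0 (by rw [hΛ]; linarith) (by rw [hs']; linarith)) hE2r
  obtain ⟨Y, hYdef⟩ : ∃ z : ℝ, z = (((need C₀ s X)^[r + 1] E : ℕ) : ℝ) + 1 := ⟨_, rfl⟩
  rw [← hYdef] at hit
  have hY1 : 1 ≤ Y := by
    have : (0 : ℝ) ≤ ((need C₀ s X)^[r + 1] E : ℕ) := Nat.cast_nonneg _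
    rw [hYdef]
    linarith
  have hbpos : (0 : ℝ) < b := by
    have : (1 : ℝ) ≤ b := by exact_mod_cast hb1
    linarith
  have haY : (a : ℝ) / b ≤ 2 ^ (q + 5) * 8 ^ q * (c₀ + 1) * Y := by
    have e1 : (a : ℝ) / (2 ^ (q + 4) * (b + 1)) < n + 1 := by
      rw [hn]
      exact Nat.lt_floor_add_one _
    have e2 : (n : ℝ) + 1 ≤ 8 ^ q * (((need C₀ s X)^[r + 1] E : ℕ) + c₀) := by
      exact_mod_cast hmain
    have e3 : (((need C₀ s X)^[r + 1] E : ℕ) : ℝ) + c₀ ≤ (c₀ + 1) * Y := by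
      have e4 : (0 : ℝ) ≤ c₀ := Nat.cast_nonneg _
      rw [hYdef] at hY1 ⊢
      nlinarith
    have e5 : (a : ℝ) < 8 ^ q * ((c₀ + 1) * Y) * (2 ^ (q + 4) * (b + 1)) := by
      rw [div_lt_iff₀ (by positivity)] at e1
      refine lt_of_lt_of_le e1 ?_
      refine mul_le_mul_of_nonneg_right ?_ (by positivity)
      exact e2.trans (mul_le_mul_of_nonneg_left e3 (by positivity))
    rw [div_le_iff₀ hbpos]
    have hb1r : (1 : ℝ) ≤ b := by exact_mod_cast hb1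
    have e6 : (2 : ℝ) ^ (q + 4) * (b + 1) ≤ 2 ^ (q + 5) * b := by
      rw [pow_succ (2 : ℝ) (q + 4)]
      have : (0 : ℝ) < 2 ^ (q + 4) := by positivity
      nlinarith
    calc (a : ℝ) ≤ 8 ^ q * ((c₀ + 1) * Y) * (2 ^ (q + 4) * (b + 1)) := e5.le
      _ ≤ 8 ^ q * ((c₀ + 1) * Y) * (2 ^ (q + 5) * b) := by
          refine mul_le_mul_of_nonneg_left e6 ?_
          positivity
      _ = _ := by ring
  have hc₆r : ((2 : ℝ) ^ (q + 5) * 8 ^ q * (c₀ + 1)) ^ 2 ^ (r + 1) = c₆ := by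
    rw [hc₆]
    push_cast
    ring
  have h6Λ : 6 * Λ ≤ K * Lg := by
    have e2 : (6 : ℝ) * c₅ ≤ K := by
      have : 6 * c₅ ≤ K := by omega
      exact_mod_cast this
    calc 6 * Λ ≤ 6 * (c₅ * Lg) := by linarith
      _ = 6 * c₅ * Lg := by ring
      _ ≤ K * Lg := mul_le_mul_of_nonneg_right e2 hLgpos
  have h6Λ0 : 0 ≤ 6 * Λ := by linarith
  have hab0 : 0 ≤ (a : ℝ) / b := by positivity
  calc ((a : ℝ) / b) ^ 2 ^ (r + 1) ≤ (2 ^ (q + 5) * 8 ^ q * (c₀ + 1) * Y) ^ 2 ^ (r + 1) :=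
        pow_le_pow_left₀ hab0 haY _
    _ = c₆ * Y ^ 2 ^ (r + 1) := by
        rw [mul_pow ((2 : ℝ) ^ (q + 5) * 8 ^ q * ((c₀ : ℝ) + 1)), hc₆r]
    _ ≤ c₆ * ((6 * Λ) ^ K₁ * s' ^ (2 ^ (r + 1) - 1) * ((E : ℝ) + 1)) :=
        mul_le_mul_of_nonneg_left hit (Nat.cast_nonneg _)
    _ ≤ c₆ * ((6 * Λ) ^ K₁ * s' ^ (2 ^ (r + 1) - 1) * (c₃ * ((k : ℝ) + L + 1))) := by
        refine mul_le_mul_of_nonneg_left ?_ (Nat.cast_nonneg _)
        refine mul_le_mul_of_nonneg_left hE1r (by positivity)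
    _ = c₆ * c₃ * (6 * Λ) ^ K₁ * (s' ^ (2 ^ (r + 1) - 1) * (k + L + 1)) := by ring
    _ ≤ (K * Lg) ^ c₆ * (K * Lg) ^ c₃ * (K * Lg) ^ K₁ *
          (s' ^ (2 ^ (r + 1) - 1) * (k + L + 1)) := by
        refine mul_le_mul_of_nonneg_right ?_ (by positivity)
        refine mul_le_mul ?_ (pow_le_pow_left₀ h6Λ0 h6Λ _) (by positivity) (by positivity)
        exact mul_le_mul (hpow c₆) (hpow c₃) (by positivity) (by positivity)
    _ ≤ (K * Lg) ^ K * (s' ^ (2 ^ (r + 1) - 1) * (k + L + 1)) := by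
        refine mul_le_mul_of_nonneg_right ?_ (by positivity)
        rw [← pow_add, ← pow_add]
        exact pow_le_pow_right₀ hKL1 (by omega)
    _ = _ := by ring

end Pool.Agent.FTR
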