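import Pool.Agent.FTR.Defs
import Pool.Agent.FRM.St
import Pool.Agent.KCL.TreeCorr

/-!
# FTR: statements of the circuit part (architect helper93)

Every module `Pool/Agent/FTR/<X>.lean` imports this file and proves `theorem thm_<X> : St_<X>` (with
the hypotheses named in the docstring), namespace `Pool.Agent.FTR`, own lemmas private or with names
starting with the name of the module. The docstrings contain the proofs.
-/

set_option autoImplicit false

namespace Pool.Agent.FTR

open Finset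

/-- An abstract net of gates `u : ι` on a set `Y` of inputs. The gate `u` has the value `sgn u` if
and only if `own u` and the literals `ch u` of other gates are true. The gates with `Keep` are the
marked and the reused gates; every other gate occurs in at most one literal. -/
structure Net (ι Y : Type) where
  val : ι → Y → Bool
  sgn : ι → Bool
  own : ι → Y → Bool
  ch : ι → Finset (ι × Bool)
  Keep : ι → Prop
  lev : ι → ℕ
  rank : ι → ℕ
  val_iff : ∀ u y, val u y = sgn u ↔ own u y = true ∧ ∀ p ∈ ch u, val p.1 y = p.2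
  rank_lt : ∀ u, ∀ p ∈ ch u, rank p.1 < rank u
  lev_le : ∀ u, ∀ p ∈ ch u, lev p.1 ≤ lev u
  lev_lt : ∀ u, ∀ p ∈ ch u, Keep p.1 → lev p.1 < lev u
  uniq : ∀ u u', ∀ p ∈ ch u, ∀ p' ∈ ch u', p.1 = p'.1 → ¬ Keep p.1 → u = u' ∧ p = p'

namespace Net

variable {ι Y : Type} (Λ : Net ι Y)

/-- all literals in `C` are true at `y` -/
def Lits (C : Finset (ι × Bool)) (y : Y) : Prop := ∀ p ∈ C, Λ.val p.1 y = p.2

open Classical in
/-- the leaf of the gate `u`: its own part and the literals of kept gates -/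
noncomputable def leaf (y : Y) (u : ι) : Bool :=
  decide (Λ.own u y = true ∧ ∀ p ∈ Λ.ch u, Λ.Keep p.1 → Λ.val p.1 y = p.2)

/-- the products of the indicator of a set in `𝒮` and of literals of kept gates of level smaller
than `l` -/
def Elem (𝒮 : (Y → Prop) → Prop) (l : ℕ) : Set (Y → ℝ) :=
  {f | ∃ (Q : Y → Prop) (C : Finset (ι × Bool)), 𝒮 Q ∧ (∀ p ∈ C, Λ.Keep p.1 ∧ Λ.lev p.1 < l) ∧
    ∀ y, f y = KCL.ind (Q y ∧ Λ.Lits C y)}

end Net

/-- **SIZ.** The sizes.  PROOF.  `siz` exists by well-founded recursion on `rank` (or: prove by induction on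
`n` that there is `siz` with the equation for all gates of rank `< n`). Sum over all `u`: `∑ siz u = card ι +
∑_u ∑_(p in ch u, not Keep) siz p.1`, and by `uniq` each gate `c` with `not Keep` occurs at most once on the
right (`(u, p) ↦ p.1` is injective on the pairs with `p ∈ ch u`, `not Keep p.1`), so the double sum is at most
`∑_(c not Keep) siz c`; subtract. -/
def St_Siz : Prop := ∀ (ι Y : Type) [Fintype ι] [DecidableEq ι] (Λ : Net ι Y) [DecidablePred Λ.Keep],
  ∃ siz : ι → ℕ, (∀ u, siz u = 1 + ∑ p ∈ (Λ.ch u).filter (fun p => ¬ Λ.Keep p.1), siz p.1) ∧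
    ∑ u ∈ univ.filter Λ.Keep, siz u ≤ Fintype.card ι

/-- **FML.** (from `St_Siz`)  The formula of a conjunction of kept gates.  PROOF.  First for a list (or
finset) of formulas with given targets: a formula of size the sum of the sizes for `∀ p, F_p = β_p` (`and` and
`not`; `tt` for the empty one). Then by strong induction on `rank u`, for `lev u ≤ l`, a formula `F_u` with
`F_u.size = siz u` and `F_u.eval z = val u y` for all `y`, `z` as below: `var u` and the formulas `F_p.1 = p.2` for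
the literals `p ∈ ch u` with `not Keep p.1`, and `not` if `sgn u = false` (children of `u` have level `≤ lev u`).
Finally the conjunction for `p ∈ C`; if `C` contains both literals of a gate take a formula of size 0 which is
always false (`not tt`); otherwise `p ↦ p.1` is injective on `C` and the size is at most
`∑_(Keep u) siz u ≤ card ι`. -/
def St_Fml : Prop := ∀ (ι Y : Type) [Fintype ι] [DecidableEq ι] (Λ : Net ι Y) (l : ℕ)
  (C : Finset (ι × Bool)), (∀ p ∈ C, Λ.Keep p.1 ∧ Λ.lev p.1 ≤ l) →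
  ∃ F : FRM.BF ι, F.size ≤ Fintype.card ι ∧
    ∀ (y : Y) (z : ι → Bool), (∀ u, Λ.lev u ≤ l → z u = Λ.leaf y u) →
      (F.eval z = true ↔ Λ.Lits C y)

/-- the exponent needed one level below -/
noncomputable def need (C s : ℕ) (X : ℝ) (E : ℕ) : ℕ :=
  E + 1 + ⌈2 * C * (Real.sqrt (s * (E + 1)) + (E + 1) + 1) * X⌉₊

/-- the constant of the approximation theorem -/
def ApxC (C : ℕ) : Prop := ∀ (X V : Type) (S : Submonoid (X → ℝ)) (Mu : ℝ) (z : X → V → Bool),
  1 ≤ Mu → (∀ v, FRM.Wt (S : Set (X → ℝ)) Mu (fun x => FRM.ind (z x v))) →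
  ∀ (F : FRM.BF V) (L : ℕ), ∃ q : X → ℝ,
    FRM.Wt (S : Set (X → ℝ))
      (Real.exp (C * (Real.sqrt (F.size * L) + L + 1) * Real.log (F.size + Mu + 2))) q ∧
    ∀ x, |q x - FRM.ind (F.eval (z x))| ≤ (1 / 2) ^ L

/-- **REC.** (from `St_Fml`)  The recursion.  PROOF.  One step: if `|∑ f G| ≤ (1/2)^(need E) card Y` for all
`f ∈ Elem l` then `|∑ f G| ≤ (1/2)^E card Y` for all `f ∈ Elem (l + 1)`; then induction on `h`.
`Elem l` is a submonoid (`Q ∧ Q'`, `C ∪ C'`; one: `True`, `∅`). Let `f = ind (Q ∧ Lits C)`, `C` kept literals of level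
`≤ l`, `F` from `St_Fml`, `z y u = leaf y u` if `lev u ≤ l` and `false` otherwise. For `lev u ≤ l` the leaf is the
product of `own u` (weight `Mu` by hypothesis) and of kept literals of level `< lev u ≤ l` (an element of
`Elem l`); the function 0 has weight `0 ≤ Mu`. `ApxC` with `S = Elem l`,
`L = E + 1` gives `q` with weight at most `2^(need E - (E + 1))` (`exp t ≤ 2^(2 t)`, `F.size ≤ s`, monotone in the
size) and `|q - ind (Lits C)| ≤ (1/2)^(E+1)`. So `|∑ ind Q * ind (Lits C) * G| ≤ (1/2)^(E+1) card Y +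
2^(need E - (E+1)) * (1/2)^(need E) card Y = (1/2)^E card Y`. -/
def St_Rec : Prop := ∀ (C₀ : ℕ), ApxC C₀ → ∀ (ι Y : Type) [Fintype ι] [DecidableEq ι] [Fintype Y]
  (Λ : Net ι Y) (𝒮 : (Y → Prop) → Prop) (G : Y → ℝ) (s : ℕ) (Mu : ℝ),
  𝒮 (fun _ => True) → (∀ P Q, 𝒮 P → 𝒮 Q → 𝒮 fun y => P y ∧ Q y) → (∀ y, |G y| ≤ 1) →
  Fintype.card ι ≤ s → 1 ≤ Mu →
  (∀ u, FRM.Wt {f : Y → ℝ | ∃ Q, 𝒮 Q ∧ ∀ y, f y = KCL.ind (Q y)} Mu
    (fun y => FRM.ind (Λ.own u y))) →
  ∀ h E : ℕ,
    (∀ Q, 𝒮 Q → |∑ y, KCL.ind (Q y) * G y| ≤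
      (1 / 2) ^ ((need C₀ s (Real.log (s + Mu + 2)))^[h] E) * Fintype.card Y) →
    ∀ f ∈ Λ.Elem 𝒮 h, |∑ y, f y * G y| ≤ (1 / 2) ^ E * Fintype.card Y

/-- **SYM.** Symmetric gates.  PROOF.  (1) Claim: for every `A ⊆ Fin q` and every `f` with `DTle t f`,
`A.card + t < q`, there are `g : Fin q → Y → ℕ` with `g i = 0` for `i ∈ A`, `g i` does not depend on the coordinate `i`
(`g i (Function.update y i c) = g i y`), and `∑ i, g i y = if f (emb own cst y) then 1 else 0`. Induction on `t`: constant `f`: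
put the constant on one `i ∉ A`. Query of `v`: if `own v = none` the answer is constant; if `own v = some (i₀, j)` use the
claim for the two answers `b` with `insert i₀ A` and `g i y = if y i₀ j = true then g¹ i y else g⁰ i y` (independent of
the coordinate `i` since `i ≠ i₀`, and zero for `i ∈ insert i₀ A`).
(2) `F i = ∑ j, g_j i` is at most `card J`, does not depend on the coordinate `i`, and the number of `j` with
`U j (emb y) = true` is `∑ i, F i y`. So the indicator is `∑_t [A (∑ t i)] ind (∀ i, F i y = t i)` over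
`t : Fin q → Fin (card J + 1)`, and `∀ i, F i y = t i` is box closed: the vertex `false` differs from the vertex
`unit i` only in the coordinate `i`. -/
def St_Sym : Prop := ∀ (V : Type) [Fintype V] [DecidableEq V] (q n t : ℕ)
  (own : V → Option (Fin q × Fin n)) (cst : V → Bool) (J : Type) [Fintype J]
  (U : J → (V → Bool) → Bool) (A : ℕ → Bool), t < q → (∀ j, SW.DTle t (U j)) →
  FRM.Wt {f : (Fin q → Fin n → Bool) → ℝ | ∃ Q, KCL.BoxClosed Q ∧ ∀ y, f y = KCL.ind (Q y)}
    ((Fintype.card J + 1 : ℝ) ^ q)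
    (fun y => FRM.ind (A (Nat.card {j // U j (KCL.emb own cst y) = true})))

/-- **NUM.** The iterated recursion.  PROOF.  As `need_iter'` in `Pool/Agent/ALM2/Numbers.lean` (induction on
`h`; copy it): one step is `f e + 1 ≤ 3 Λ^2 (sqrt (s' (e + 1)) + (e + 1))`. -/
def St_Num : Prop := ∀ h : ℕ, ∃ K : ℕ, ∀ (f : ℕ → ℕ) (E : ℕ) (Λ s' : ℝ), 1 ≤ Λ → 1 ≤ s' →
  (∀ e : ℕ, (f e : ℝ) + 1 ≤ 3 * Λ ^ 2 * (Real.sqrt (s' * (e + 1)) + (e + 1))) →
  (E : ℝ) + 1 ≤ Λ * s' →
  ((f^[h] E : ℕ) : ℝ) + 1 ≤ (6 * Λ) ^ K * s' ∧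
  (((f^[h] E : ℕ) : ℝ) + 1) ^ 2 ^ h ≤ (6 * Λ) ^ K * s' ^ (2 ^ h - 1) * ((E : ℝ) + 1)

end Pool.Agent.FTR
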